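import Pool.Agent.Helper3.HZ.LineA

/-!
# HZ: LINE (7.3)
-/

set_option autoImplicit false

open MulAction Pointwise

namespace Pool.Agent.Helper93.HZ

open Ctx

section field2

variable {U : Type} {T : SimpleGraph U}

/-- as `line_onI_iter`, without the assumption that `N₁` has no fixed vertex -/
theorem line_onI_iter' {N₁ N₂ : U → U} (h1 : IsField T N₁) (h2 : IsField T N₂)
    {c : U} (hc : OnI N₁ N₂ c) (k : ℕ) (hk : N₁ (N₁^[k] c) ≠ N₁^[k] c) :
    OnI N₁ N₂ (N₁^[k] c) ∧ N₂ (N₁^[k + 1] c) = N₁^[k] c := by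
  have key : ∀ c, OnI N₁ N₂ c → N₁ c ≠ c → N₂ (N₁ c) = c ∧ OnI N₁ N₂ (N₁ c) := by
    intro c hc hne
    have h3 : T.Adj c (N₁ c) := (h1.1 c).resolve_left hne
    have h4 : N₂ c ≠ N₁ c := fun h => hne (hc h.symm)
    have h5 : N₂ (N₁ c) = c := (line_back h2 h3).resolve_left h4
    refine ⟨h5, fun h => ?_⟩
    rw [h5] at h
    exact absurd h ((h1.2 c (N₁ c) h3).1 rfl)
  induction k with
  | zero => exact ⟨hc, (key c hc hk).1⟩
  | succ k ih =>
    have hne : N₁ (N₁^[k] c) ≠ N₁^[k] c := by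
      intro h
      apply hk
      rw [Function.iterate_succ_apply' N₁ k c, h, h]
    obtain ⟨h3, -⟩ := ih hne
    have h4 := (key _ h3 hne).2
    rw [← Function.iterate_succ_apply' N₁ k c] at h4
    refine ⟨h4, ?_⟩
    have h5 := (key _ h4 hk).1
    rw [Function.iterate_succ_apply' N₁ (k + 1) c]
    exact h5

/-- behind a center the third field points towards the center -/
theorem line_behind {N₁ N₂ N₃ : U → U} (h2 : IsField T N₂) (h3 : IsField T N₃) {c a : U} {k : ℕ}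
    (hc : IsCenter N₁ N₂ N₃ c) (ha : N₂^[k] c = a) (hne : N₂ a ≠ a) : N₃ a ≠ N₂ a := by
  subst ha
  rcases k with _ | k
  · intro h
    exact hne (hc.2.1 h.symm)
  · have h4 : N₂ (N₂^[k] c) ≠ N₂^[k] c := by
      intro h
      apply hne
      rw [Function.iterate_succ_apply' N₂ k c, h, h]
    have h5 := (line_onI_iter' h2 h3 hc.2.1 k h4).2
    rw [h5, Function.iterate_succ_apply' N₂ k c]
    have h6 : T.Adj (N₂^[k] c) (N₂ (N₂^[k] c)) := (h2.1 _).resolve_left h4
    exact ((h2.2 _ _ h6).1 rfl).symm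

end field2

variable {G : Type} [Group G]

section B

variable {D : Setup G} {K : Cx G} {P : Pts D K} {v0 : K.V} {u0 w0 : D.U}

/-- axis vertices of the same height are equal -/
theorem line_h_inj {x : K.V} (hx : ¬ EllV D K x) {h : D.U → ℤ}
    (hh : ∀ u, h (P.N x u) = h u + 1) {c c' : D.U} (hc : P.N x c ≠ P.M x c)
    (hc' : P.N x c' ≠ P.M x c') (he : h c = h c') : c = c' := by
  obtain ⟨hN, hM, -, -⟩ := P.hyp x hx
  obtain ⟨i, j, e⟩ := line_merge D.tree (P.fN x) c c'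
  have h1 := line_height_iter hh i c
  have h2 := line_height_iter hh j c'
  have h3 : i = j := by
    have : (i : ℤ) = j := by
      rw [e] at h1
      linarith
    exact_mod_cast this
  subst h3
  have e1 := (mm_iter (P.fM x) (P.fN x) hN i c (Ne.symm hc)).1
  have e2 := (mm_iter (P.fM x) (P.fN x) hN i c' (Ne.symm hc')).1
  rw [← e1, ← e2, e]

theorem line_h_M {x : K.V} (hx : ¬ EllV D K x) {h : D.U → ℤ}
    (hh : ∀ u, h (P.N x u) = h u + 1) {c : D.U} (hc : P.N x c ≠ P.M x c) :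
    h (P.M x c) = h c - 1 := by
  obtain ⟨hN, hM, -, -⟩ := P.hyp x hx
  have h1 := (mm_ax (P.fN x) (P.fM x) hM hc).1
  have h2 := hh (P.M x c)
  rw [h1] at h2
  linarith

/-- the exits -/
def line_ex (P : Pts D K) (v0 : K.V) (u0 w0 : D.U) : Set (K.V × K.V) :=
  {p | p.1 ∈ cl D K v0 ∧ Fr K p.1 p.2 ∧
    ((P.N p.1 u0 = w0 ∧ p.2 ∈ Sset P p.1 u0 w0 ∧ ∃ z, K.tri p.1 p.2 z ∧ P.N z w0 ≠ u0) ∨
     (P.N p.1 w0 = u0 ∧ p.2 ∈ Sset P p.1 w0 u0 ∧ ∃ z, K.tri p.1 p.2 z ∧ P.N z u0 ≠ w0))}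

namespace Line_H

variable (L : Line_H P v0 u0 w0)
include L

/-- heights in the chamber of the tail of a special dart -/
theorem h_behind {x : K.V} (hx : x ∈ line_Hs D K v0) {h : D.U → ℤ}
    (hh : ∀ u, h (P.N x u) = h u + 1) {b c : D.U}
    (hsp : line_sp K v0 u0 w0 (cl D K x) b (P.N x b))
    (hc : c ∈ line_ch P v0 u0 w0 (cl D K x) b) : h c ≤ h b := by
  have h1 := L.fr_const hx hc
  have h2 : line_fr K v0 u0 w0 (cl D K x) (P.N x) b = b :=
    line_fr_eq (k := 0) hsp (fun j hj => absurd hj (Nat.not_lt_zero j))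
  obtain ⟨k, h3, -, -⟩ := L.fr_spec hx c
  have h4 := line_height_iter hh k c
  rw [← h3, h1, h2] at h4
  have : (0 : ℤ) ≤ k := Int.natCast_nonneg k
  linarith

/-- vertices of a chamber of an axis vertex are on the axis -/
theorem ch_axis {x : K.V} (hx : x ∈ line_Hs D K v0) {b c : D.U} (hb : P.N x b ≠ P.M x b)
    (hc : c ∈ line_ch P v0 u0 w0 (cl D K x) b) : P.N x c ≠ P.M x c := by
  have h' : Relation.ReflTransGen (line_st P v0 u0 w0 (cl D K x)) b c := hc
  clear hc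
  induction h' with
  | refl => exact hb
  | tail _ h1 _ => exact (line_ax2_on (L.hs_ell hx) (L.st_ax hx h1)).2

/-- heights in the chamber of the head of a special dart -/
theorem h_ahead {x : K.V} (hx : x ∈ line_Hs D K v0) {h : D.U → ℤ}
    (hh : ∀ u, h (P.N x u) = h u + 1) {b c : D.U}
    (hsp : line_sp K v0 u0 w0 (cl D K x) b (P.N x b))
    (hc : c ∈ line_ch P v0 u0 w0 (cl D K x) (P.N x b)) : h b + 1 ≤ h c := by
  obtain ⟨hN, hM, -, -⟩ := P.hyp x (L.hs_ell hx)
  have hb := (L.sp_N hx hsp).1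
  have hb2 := (line_axN (P.fN x) (P.fM x) hN hb).2
  have hcax := L.ch_axis hx hb2 hc
  by_contra hcon
  have hlt : h c ≤ h b := by omega
  obtain ⟨m, hm⟩ := Int.eq_ofNat_of_zero_le (show 0 ≤ h b - h c by linarith)
  have h1 : (P.N x)^[m] c = b := by
    refine line_h_inj (L.hs_ell hx) hh (line_axN_iter (P.fN x) (P.fM x) hN hcax m) hb ?_
    rw [line_height_iter hh]
    linarith
  -- so the front of `c` is at most at position `m`
  obtain ⟨k, h3, h4, h5⟩ := L.fr_spec hx c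
  have h6 : k ≤ m := by
    by_contra hk
    apply h5 m (by omega)
    rw [Function.iterate_succ_apply' (P.N x) m c, h1]
    exact hsp
  have h7 := line_height_iter hh k c
  rw [← h3, L.fr_const hx hc] at h7
  obtain ⟨k', h8, -, -⟩ := L.fr_spec hx (P.N x b)
  have h9 := line_height_iter hh k' (P.N x b)
  rw [← h8, hh] at h9
  have : (0 : ℤ) ≤ k' := Int.natCast_nonneg k'
  have : (k : ℤ) ≤ m := by exact_mod_cast h6
  linarith

/-- two adjacent chambers determine the special edge between them (group form) -/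
theorem sep {x : K.V} (hx : x ∈ line_Hs D K v0) {b : D.U}
    (hsp : line_sp K v0 u0 w0 (cl D K x) b (P.N x b)) {g : G}
    (hg : g • cl D K x = cl D K x)
    (h : (g • line_ch P v0 u0 w0 (cl D K x) (P.N x b) = line_ch P v0 u0 w0 (cl D K x) (P.N x b) ∧
        g • line_ch P v0 u0 w0 (cl D K x) b = line_ch P v0 u0 w0 (cl D K x) b) ∨
      (g • line_ch P v0 u0 w0 (cl D K x) (P.N x b) = line_ch P v0 u0 w0 (cl D K x) b ∧
        g • line_ch P v0 u0 w0 (cl D K x) b = line_ch P v0 u0 w0 (cl D K x) (P.N x b))) :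
    g = 1 := by
  have hx' := L.hs_ell hx
  obtain ⟨hN, hM, -, -⟩ := P.hyp x hx'
  obtain ⟨ht, hh⟩ := line_height L.tpot D.tree (P.fN x) hN
  have hb := (L.sp_N hx hsp).1
  have hb2 := (line_axN (P.fN x) (P.fM x) hN hb).2
  have hgx : g • x ∈ cl D K x := by
    have h8 : g • x ∈ g • cl D K x := Set.smul_mem_smul_set (line_cl_self x)
    rw [hg] at h8
    exact h8
  have hma : g • (P.N x b) ∈ g • line_ch P v0 u0 w0 (cl D K x) (P.N x b) :=
    Set.smul_mem_smul_set (line_ch_self _ _)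
  have hmb : g • b ∈ g • line_ch P v0 u0 w0 (cl D K x) b :=
    Set.smul_mem_smul_set (line_ch_self _ _)
  have hgax : ∀ c, P.N x c ≠ P.M x c → P.N x (g • c) ≠ P.M x (g • c) := by
    intro c hc
    refine (L.ax_cl hx hgx).1 ?_
    rw [P.eN, P.eM]
    exact fun h => hc (smul_left_cancel g h)
  rcases L.ends hx hgx with ⟨e1, e2⟩ | ⟨e1, e2⟩
  · rcases h with ⟨h1, h2⟩ | ⟨h1, h2⟩
    · exact L.stab_one hx hg h1 e1
    · exfalso
      rw [h1] at hma
      rw [h2] at hmb
      have h3 := L.h_behind hx hh hsp hma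
      have h4 := L.h_ahead hx hh hsp hmb
      have h5 : P.N x (g • b) = g • P.N x b := by rw [← P.eN, e1]
      have h6 := hh (g • b)
      rw [h5] at h6
      linarith
  · have h5 : P.M x (g • b) = g • P.N x b := by rw [← P.eN, e1]
    have h6 := line_h_M hx' hh (hgax b hb)
    rw [h5] at h6
    rcases h with ⟨h1, h2⟩ | ⟨h1, h2⟩
    · exfalso
      rw [h1] at hma
      rw [h2] at hmb
      have h3 := L.h_ahead hx hh hsp hma
      have h4 := L.h_behind hx hh hsp hmb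
      linarith
    · exfalso
      rw [h1] at hma
      rw [h2] at hmb
      have h3 := L.h_behind hx hh hsp hma
      have h4 := L.h_ahead hx hh hsp hmb
      have e3 : g • b = P.N x b := by
        refine line_h_inj hx' hh (hgax b hb) hb2 ?_
        rw [hh]
        linarith
      have e4 : g • P.N x b = b := by
        refine line_h_inj hx' hh (hgax _ hb2) hb ?_
        linarith
      have h7 : D.T.Adj b (P.N x b) := line_fwd (P.fN x) hN b
      rcases (D.adj_iff _ _).1 h7 with h8 | h8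
      · have h9 := D.arr_smul g _ _ h8
        rw [e3, e4] at h9
        exact D.arr_asymm _ _ h8 h9
      · have h9 := D.arr_smul g _ _ h8
        rw [e3, e4] at h9
        exact D.arr_asymm _ _ h8 h9

/-- description of a switch -/
theorem sw_spec {x y : K.V} {a b : D.U} (h : (x, y, a, b) ∈ L.F.Sw) :
    K.adj x y ∧ line_cl D K v0 x ≠ line_cl D K v0 y ∧ x ∈ line_Hs D K v0 ∧ P.N x b = a ∧
      line_sp K v0 u0 w0 (cl D K x) b a ∧ y ∈ Sset P x b a ∧
      (∃ z, K.tri x y z ∧ P.N z a ≠ b) ∧ L.pi x y a ≠ L.pi x y b ∧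
      (L.pi x y a).1 = .inr (cl D K x, line_ch P v0 u0 w0 (cl D K x) a) ∧
      (L.pi x y b).1 = .inr (cl D K x, line_ch P v0 u0 w0 (cl D K x) b) := by
  obtain ⟨h1, h2, h3, h4, h5, h6⟩ := h
  have h6' : L.pi x y a ≠ L.pi x y b := h6
  obtain ⟨-, hx, h7, h8, h9, h10⟩ := (L.p2 h1 h2 h5).resolve_left h6'
  refine ⟨h1, h2, hx, h5.2.1, h7, h8, ?_, h6', h9, h10⟩
  have hx' := L.hs_ell hx
  obtain ⟨z, hz⟩ := (L.red.R2 x (Or.inr hx')).2 y h1
  obtain ⟨z₁, z₂, c₁, c₂, k1, k2, k3, k4, -, k, k6⟩ := h3.2 ⟨z, hz⟩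
  refine ⟨z₂, k2, ?_⟩
  have hb : P.N y a = b := h5.2.2
  have hne : P.N y a ≠ a := by
    rw [hb]
    exact h5.1.ne.symm
  have := line_behind (P.fN y) (P.fN z₂) k4 k6 hne
  rw [hb] at this
  exact this

/-- a switch gives an exit -/
theorem sw_exit {x y : K.V} {a b : D.U} (h : (x, y, a, b) ∈ L.F.Sw) :
    ∃ p ∈ line_ex P v0 u0 w0, ∃ g : G, g • p.1 = x ∧ g • p.2 = y ∧
      ((P.N p.1 u0 = w0 ∧ g • w0 = a ∧ g • u0 = b) ∨
        (P.N p.1 u0 ≠ w0 ∧ g • u0 = a ∧ g • w0 = b)) := by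
  obtain ⟨h1, h2, hx, h3, h4, h5, ⟨z, h6, h7⟩, -, -, -⟩ := L.sw_spec h
  have hfr := L.free hx h1 h2
  obtain ⟨g, hg, h8⟩ := h4
  have hp1 : g⁻¹ • x ∈ cl D K v0 := by
    have : x ∈ g • cl D K v0 := by rw [hg]; exact line_cl_self x
    exact Set.mem_smul_set_iff_inv_smul_mem.1 this
  have hpx' := (L.hs_smul g⁻¹ hx).1
  have hSL := L.sl G D K P L.red L.rmin L.nd (g⁻¹ • x)
  have hN : P.N (g⁻¹ • x) (g⁻¹ • b) = g⁻¹ • a := by rw [P.eN, h3]
  have hfr' : Fr K (g⁻¹ • x) (g⁻¹ • y) := Fr_smul g⁻¹ hfr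
  have htr : K.tri (g⁻¹ • x) (g⁻¹ • y) (g⁻¹ • z) := K.smul_tri g⁻¹ _ _ _ h6
  have hspx : P.N x b ≠ P.M x b := by
    have h9 : line_sp K v0 u0 w0 (cl D K x) b (P.N x b) := by rw [h3]; exact ⟨g, hg, h8⟩
    exact (L.sp_N hx h9).1
  have hax : Ax P (g⁻¹ • x) (g⁻¹ • b) (g⁻¹ • a) :=
    Ax_smul P g⁻¹ ((line_ax_iff (L.hs_ell hx)).2 ⟨h3, hspx⟩)
  have hS : g⁻¹ • y ∈ Sset P (g⁻¹ • x) (g⁻¹ • b) (g⁻¹ • a) := by
    have h10 := (hSL _ _ (L.hs_ell hpx') hax).2.2.2.2.2 g (g⁻¹ • y)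
    rw [smul_inv_smul, smul_inv_smul, smul_inv_smul, smul_inv_smul] at h10
    exact h10.1 h5
  have hz : P.N (g⁻¹ • z) (g⁻¹ • a) ≠ g⁻¹ • b := by
    rw [P.eN]
    exact fun h => h7 (smul_left_cancel _ h)
  rcases h8 with ⟨h8, h9⟩ | ⟨h8, h9⟩
  · rw [h8, h9, inv_smul_smul, inv_smul_smul] at hN hS hz
    exact ⟨(g⁻¹ • x, g⁻¹ • y), ⟨hp1, hfr', Or.inl ⟨hN, hS, _, htr, hz⟩⟩, g, smul_inv_smul g x,
      smul_inv_smul g y, Or.inl ⟨hN, h9.symm, h8.symm⟩⟩
  · rw [h8, h9, inv_smul_smul, inv_smul_smul] at hN hS hz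
    refine ⟨(g⁻¹ • x, g⁻¹ • y), ⟨hp1, hfr', Or.inr ⟨hN, hS, _, htr, hz⟩⟩, g, smul_inv_smul g x,
      smul_inv_smul g y, Or.inr ⟨?_, h9.symm, h8.symm⟩⟩
    have hadj : D.T.Adj u0 w0 := line_ax2_adj L.ax0
    exact fun h => ((P.fN _).2 _ _ hadj).1 h hN

theorem sw_eq {s s' : K.V × K.V × D.U × D.U} (h : s ∈ L.F.Sw) (h' : s' ∈ L.F.Sw)
    {p p' : K.V × K.V} {g g' : G} (hpp : p = p')
    (h1 : g • p.1 = s.1 ∧ g • p.2 = s.2.1 ∧
      ((P.N p.1 u0 = w0 ∧ g • w0 = s.2.2.1 ∧ g • u0 = s.2.2.2) ∨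
        (P.N p.1 u0 ≠ w0 ∧ g • u0 = s.2.2.1 ∧ g • w0 = s.2.2.2)))
    (h2 : g' • p'.1 = s'.1 ∧ g' • p'.2 = s'.2.1 ∧
      ((P.N p'.1 u0 = w0 ∧ g' • w0 = s'.2.2.1 ∧ g' • u0 = s'.2.2.2) ∨
        (P.N p'.1 u0 ≠ w0 ∧ g' • u0 = s'.2.2.1 ∧ g' • w0 = s'.2.2.2))) :
    (g' * g⁻¹) • s = s' := by
  subst hpp
  obtain ⟨x, y, a, b⟩ := s
  obtain ⟨x', y', a', b'⟩ := s'
  obtain ⟨h3, h4, h5⟩ := h1
  obtain ⟨h6, h7, h8⟩ := h2
  simp only at h3 h4 h5 h6 h7 h8
  show ((g' * g⁻¹) • x, (g' * g⁻¹) • y, (g' * g⁻¹) • a, (g' * g⁻¹) • b) = (x', y', a', b')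
  rcases h5 with ⟨h5, h9, h10⟩ | ⟨h5, h9, h10⟩
  · rcases h8 with ⟨-, h11, h12⟩ | ⟨h8, -, -⟩
    · rw [← h3, ← h4, ← h9, ← h10, ← h6, ← h7, ← h11, ← h12]
      simp only [mul_smul, inv_smul_smul]
    · exact absurd h5 h8
  · rcases h8 with ⟨h8, -, -⟩ | ⟨-, h11, h12⟩
    · exact absurd h8 h5
    · rw [← h3, ← h4, ← h9, ← h10, ← h6, ← h7, ← h11, ← h12]
      simp only [mul_smul, inv_smul_smul]

/-- the number of orbits of switches is at most the number of exits -/
theorem oc_sw (hf : (line_ex P v0 u0 w0).Finite) :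
    FinOrb G L.F.Sw ∧ oc G L.F.Sw ≤ (line_ex P v0 u0 w0).ncard := by
  classical
  let r : K.V × K.V → K.V × K.V × D.U × D.U := fun p =>
    if P.N p.1 u0 = w0 then (p.1, p.2, w0, u0) else (p.1, p.2, u0, w0)
  have hsub : (fun s : K.V × K.V × D.U × D.U => orbit G s) '' L.F.Sw ⊆
      (fun p => orbit G (r p)) '' line_ex P v0 u0 w0 := by
    rintro _ ⟨⟨x, y, a, b⟩, hs, rfl⟩
    obtain ⟨p, hp, g, h1, h2, h3⟩ := L.sw_exit hs
    refine ⟨p, hp, orbit_eq_iff'.2 ⟨g, ?_⟩⟩
    rcases h3 with ⟨h3, h4, h5⟩ | ⟨h3, h4, h5⟩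
    · show g • (if P.N p.1 u0 = w0 then (p.1, p.2, w0, u0) else (p.1, p.2, u0, w0)) = _
      rw [if_pos h3, ← h1, ← h2, ← h4, ← h5]
      rfl
    · show g • (if P.N p.1 u0 = w0 then (p.1, p.2, w0, u0) else (p.1, p.2, u0, w0)) = _
      rw [if_neg h3, ← h1, ← h2, ← h4, ← h5]
      rfl
  refine ⟨(hf.image _).subset hsub, ?_⟩
  exact (Set.ncard_le_ncard hsub (hf.image _)).trans (Set.ncard_image_le hf)

/-- a class containing a translate of `v0` has trivial chamber stabilizers if it is a point -/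
theorem chamber_free (hs : cl D K v0 = {v0}) {p : line_W P v0 u0 w0} {c : D.U}
    (hp : p.1 = .inr (cl D K v0, line_ch P v0 u0 w0 (cl D K v0) c)) (g : G)
    (hg : g • p.1 = p.1) : g = 1 := by
  rw [hp] at hg
  have h1 : (Sum.inr (g • cl D K v0, g • line_ch P v0 u0 w0 (cl D K v0) c) :
    K.V ⊕ (Set K.V × Set D.U)) = Sum.inr (cl D K v0, line_ch P v0 u0 w0 (cl D K v0) c) := hg
  have h2 := Prod.ext_iff.1 (Sum.inr_injective h1)
  have h3 : g • cl D K v0 = cl D K v0 := h2.1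
  have h4 : g • line_ch P v0 u0 w0 (cl D K v0) c = line_ch P v0 u0 w0 (cl D K v0) c := h2.2
  have h5 : g • v0 = v0 := by
    have h6 : g • v0 ∈ g • cl D K v0 := Set.smul_mem_smul_set (line_cl_self v0)
    rw [h3, hs] at h6
    exact h6
  exact L.stab_one hs0 h3 h4 (by rw [h5])

/-- the lifted triangles and the count after removing the D-triangles -/
theorem blow (hPL : ST_PL) (hFF : ST_FF) (hfin : (line_ex P v0 u0 w0).Finite)
    (hex : (line_ex P v0 u0 w0).ncard ≤ 1) :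
    ∃ (R : Cx G) (j : R.V → line_W P v0 u0 w0), Function.Injective j ∧
      (∀ (g : G) p, (j (g • p)).1 = g • (j p).1) ∧
      (∀ p q r, L.F.lt p q r → ∃ p' q' r', R.tri p' q' r' ∧ j p' = p ∧ j q' = q ∧ j r' = r) ∧
      rr R ≤ oc G {s : Set K.V | ∃ x y z, K.tri x y z ∧ line_cl D K v0 x ≠ line_cl D K v0 y ∧
        line_cl D K v0 y ≠ line_cl D K v0 z ∧ line_cl D K v0 x ≠ line_cl D K v0 z ∧
        s = {x, y, z}} := by
  classical
  obtain ⟨R, e, he, hes, hadj, htri, hrr, hlt, hdt⟩ := hPL G D K P L.red L.rmin L.nd L.F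
  obtain ⟨hfo, hoc⟩ := L.oc_sw hfin
  have hrr' : rr R ≤ oc G {s : Set K.V | ∃ x y z, K.tri x y z ∧
      line_cl D K v0 x ≠ line_cl D K v0 y ∧ line_cl D K v0 y ≠ line_cl D K v0 z ∧
      line_cl D K v0 x ≠ line_cl D K v0 z ∧ s = {x, y, z}} + oc G L.F.Sw := hrr
  by_cases hSw : L.F.Sw = ∅
  · refine ⟨R, e, he.1, fun g p => by rw [hes]; rfl, ?_, ?_⟩
    · intro p q r h
      obtain ⟨p', rfl⟩ := he.2 p
      obtain ⟨q', rfl⟩ := he.2 q
      obtain ⟨r', rfl⟩ := he.2 r
      exact ⟨p', q', r', (htri _ _ _).2 (Or.inl h), rfl, rfl, rfl⟩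
    · rw [hSw, oc_empty] at hrr'
      simpa using hrr'
  · obtain ⟨⟨x, y, a, b⟩, hs⟩ := Set.nonempty_iff_ne_empty.2 hSw
    obtain ⟨h1, h2, hx, h3, h4, h5, -, h6, h7, h8⟩ := L.sw_spec hs
    obtain ⟨p, hp⟩ := he.2 (L.pi x y a)
    obtain ⟨p', hp'⟩ := he.2 (L.pi x y b)
    obtain ⟨q, hq⟩ := he.2 (L.pi y x a)
    have hdt0 : L.F.dt (e p) (e p') (e q) := ⟨x, y, a, b, hs, hq, Or.inl ⟨hp, hp'⟩⟩
    have htr : R.tri p p' q := (htri _ _ _).2 (Or.inr (Or.inl hdt0))
    have hρ := hdt _ _ _ hdt0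
    have hρpp : L.F.ρ (e p) = L.F.ρ (e p') := L.F.ss_fib _ _ hρ.1
    have hρg : ∀ g : G, L.F.ρ (e (g • p)) = L.F.ρ (e (g • p')) := by
      intro g
      rw [hes, hes, L.F.ρ_smul, L.F.ρ_smul, hρpp]
    -- the only triangle at the edge `{p,p'}`
    have huni : ∀ r, R.tri p p' r → r = q := by
      intro r hr
      rcases (htri _ _ _).1 hr with h | h | h | h
      · exact absurd hρpp (hlt _ _ _ h).1
      · obtain ⟨x', y', a', b', hs', hq', hpp'⟩ := h
        obtain ⟨k1, k2, kx, k3, k4, k5, -, k6, k7, k8⟩ := L.sw_spec hs'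
        obtain ⟨s, hse, g, g1⟩ := L.sw_exit hs
        obtain ⟨s', hse', g', g1'⟩ := L.sw_exit hs'
        have hss : s = s' := by
          have := (Set.ncard_le_one hfin).1 hex s hse s' hse'
          exact this
        have hgg := L.sw_eq hs hs' hss g1 g1'
        set k : G := g' * g⁻¹ with hk
        have e1 : k • x = x' := congrArg Prod.fst hgg
        have e2 : k • y = y' := congrArg (fun t => t.2.1) hgg
        have e3 : k • a = a' := congrArg (fun t => t.2.2.1) hgg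
        have e4 : k • b = b' := congrArg (fun t => t.2.2.2) hgg
        have k7' : (L.pi x' y' a').1 = k • (L.pi x y a).1 := by
          rw [← e1, ← e2, ← e3, L.p1 k h1 h2]
        have k8' : (L.pi x' y' b').1 = k • (L.pi x y b).1 := by
          rw [← e1, ← e2, ← e4, L.p1 k h1 h2]
        have hpp2 : (L.pi x y a = L.pi x' y' a' ∧ L.pi x y b = L.pi x' y' b') ∨
            (L.pi x y a = L.pi x' y' b' ∧ L.pi x y b = L.pi x' y' a') := by
          rw [hp, hp'] at hpp'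
          exact hpp'
        have key : ∀ c c', (Sum.inr (cl D K x, line_ch P v0 u0 w0 (cl D K x) c) :
            K.V ⊕ (Set K.V × Set D.U)) =
            k • Sum.inr (cl D K x, line_ch P v0 u0 w0 (cl D K x) c') →
            k • cl D K x = cl D K x ∧ k • line_ch P v0 u0 w0 (cl D K x) c' =
              line_ch P v0 u0 w0 (cl D K x) c := by
          intro c c' h
          have h9 : (Sum.inr (cl D K x, line_ch P v0 u0 w0 (cl D K x) c) :
            K.V ⊕ (Set K.V × Set D.U)) = Sum.inr (k • cl D K x,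
              k • line_ch P v0 u0 w0 (cl D K x) c') := h
          have h10 := Prod.ext_iff.1 (Sum.inr_injective h9)
          exact ⟨h10.1.symm, h10.2.symm⟩
        have hk1 : k = 1 := by
          have hsp : line_sp K v0 u0 w0 (cl D K x) b (P.N x b) := by rw [h3]; exact h4
          rcases hpp2 with ⟨m1, m2⟩ | ⟨m1, m2⟩
          · have n1 := congrArg Subtype.val m1
            have n2 := congrArg Subtype.val m2
            rw [k7', h7] at n1
            rw [k8', h8] at n2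
            obtain ⟨o1, o2⟩ := key _ _ n1
            obtain ⟨-, o3⟩ := key _ _ n2
            refine L.sep hx hsp o1 (Or.inl ⟨?_, o3⟩)
            rw [h3]
            exact o2
          · have n1 := congrArg Subtype.val m1
            have n2 := congrArg Subtype.val m2
            rw [k8', h7, h8] at n1
            rw [k7', h7, h8] at n2
            obtain ⟨o1, o2⟩ := key _ _ n1
            obtain ⟨-, o3⟩ := key _ _ n2
            refine L.sep hx hsp o1 (Or.inr ⟨?_, ?_⟩)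
            · rw [h3]
              exact o3
            · rw [h3]
              exact o2
        apply he.1
        rw [hq, hq', ← e1, ← e2, ← e3, hk1, one_smul, one_smul, one_smul]
        rfl
      · exfalso
        obtain ⟨m1, m2⟩ := hdt _ _ _ h
        exact m2 hρpp
      · exfalso
        obtain ⟨m1, m2⟩ := hdt _ _ _ h
        apply m2
        rw [← hρpp]
        exact (L.F.ss_fib _ _ m1).symm
    have hne1 : ∀ g : G, ({g • p, g • p'} : Set R.V) ≠ {p, q} := by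
      intro g h
      have m1 : p ∈ ({g • p, g • p'} : Set R.V) := by rw [h]; simp
      have m2 : q ∈ ({g • p, g • p'} : Set R.V) := by rw [h]; simp
      apply hρ.2
      have m3 : ∀ t ∈ ({g • p, g • p'} : Set R.V), L.F.ρ (e t) = L.F.ρ (e (g • p)) := by
        rintro t (rfl | rfl)
        · rfl
        · exact (hρg g).symm
      rw [m3 q m2, m3 p m1]
    have hne2 : ∀ g : G, ({g • p, g • p'} : Set R.V) ≠ {p', q} := by
      intro g h
      have m1 : p' ∈ ({g • p, g • p'} : Set R.V) := by rw [h]; simp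
      have m2 : q ∈ ({g • p, g • p'} : Set R.V) := by rw [h]; simp
      apply hρ.2
      have m3 : ∀ t ∈ ({g • p, g • p'} : Set R.V), L.F.ρ (e t) = L.F.ρ (e (g • p)) := by
        rintro t (rfl | rfl)
        · rfl
        · exact (hρg g).symm
      rw [m3 q m2, hρpp, m3 p' m1]
    obtain ⟨R', i, hsub, hsurj, -, htri', hrr2⟩ := hFF G D R p p' q htr huni hne1 hne2
    refine ⟨R', fun t => e (i t), fun t t' h => hsub.inj (he.1 h), ?_, ?_, by omega⟩
    · intro g t
      show (e (i (g • t))).1 = _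
      rw [hsub.equiv, hes]
      rfl
    · intro s t r h
      obtain ⟨s0, rfl⟩ := he.2 s
      obtain ⟨t0, rfl⟩ := he.2 t
      obtain ⟨r0, rfl⟩ := he.2 r
      obtain ⟨s', rfl⟩ := hsurj s0
      obtain ⟨t', rfl⟩ := hsurj t0
      obtain ⟨r', rfl⟩ := hsurj r0
      refine ⟨s', t', r', (htri' _ _ _).2 ⟨(htri _ _ _).2 (Or.inl h), ?_⟩, rfl, rfl, rfl⟩
      intro g hg
      obtain ⟨n1, n2, n3⟩ := hlt _ _ _ h
      have m1 : g • p ∈ ({i s', i t', i r'} : Set R.V) := by rw [hg]; simp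
      have m2 : g • p' ∈ ({i s', i t', i r'} : Set R.V) := by rw [hg]; simp
      have m3 : g • p ≠ g • p' := by
        intro h
        exact h6 (by rw [← hp, ← hp', smul_left_cancel g h])
      have m4 := hρg g
      simp only [Set.mem_insert_iff, Set.mem_singleton_iff] at m1 m2
      rcases m1 with m1 | m1 | m1 <;> rcases m2 with m2 | m2 | m2 <;> rw [m1, m2] at m3 m4 <;>
        first
        | exact m3 rfl
        | exact n1 m4
        | exact n1 m4.symm
        | exact n2 m4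
        | exact n2 m4.symm
        | exact n3 m4
        | exact n3 m4.symm

/-- 7.3 -/
theorem main (hPL : ST_PL) (hFF : ST_FF) (hFV : ST_FV) (hTFB : ST_TFB)
    (hfin : (line_ex P v0 u0 w0).Finite) : 2 ≤ (line_ex P v0 u0 w0).ncard := by
  classical
  by_contra hcon
  have hex : (line_ex P v0 u0 w0).ncard ≤ 1 := by omega
  obtain ⟨R, j, hj, hje, hjl, hR⟩ := L.blow hPL hFF hfin hex
  set T3 : Set (Set K.V) := {s : Set K.V | ∃ x y z, K.tri x y z ∧
    line_cl D K v0 x ≠ line_cl D K v0 y ∧ line_cl D K v0 y ≠ line_cl D K v0 z ∧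
    line_cl D K v0 x ≠ line_cl D K v0 z ∧ s = {x, y, z}} with hT3
  have hsub : T3 ⊆ {s : Set K.V | ∃ x y z, K.tri x y z ∧ s = {x, y, z}} := by
    rintro s ⟨x, y, z, h, -, -, -, rfl⟩
    exact ⟨x, y, z, h, rfl⟩
  have h1 : oc G T3 ≤ rr K := oc_mono K.finT hsub
  have h2 : rr K ≤ rr R := L.rmin R
  have hv0 := L.hs_ell hs0
  by_cases hs : cl D K v0 = {v0}
  · -- the cluster is a point
    obtain ⟨y, hy⟩ := K.nbr v0
    obtain ⟨z, hz⟩ := (L.red.R2 v0 (Or.inr L.hyp0)).2 y hy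
    obtain ⟨t1, t2, t3, t4, t5, t6⟩ := K.tri_adj' hz
    obtain ⟨n1, n2, n3⟩ := K.tri_ne hz
    have hcl : ∀ x : K.V, line_cl D K v0 x = {x} := by
      intro x
      by_cases hx : x ∈ line_Hs D K v0
      · obtain ⟨g, hg⟩ := L.hs_g hx
        rw [line_cl_of hx, ← hg, hs, Set.smul_set_singleton]
        have : x ∈ g • cl D K v0 := by rw [hg]; exact line_cl_self x
        rw [hs, Set.smul_set_singleton] at this
        rw [Set.mem_singleton_iff.1 this]
      · exact line_cl_not hx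
    have hclne : ∀ x y : K.V, x ≠ y → line_cl D K v0 x ≠ line_cl D K v0 y := by
      intro x y hne h
      rw [hcl, hcl] at h
      exact hne (Set.singleton_injective h)
    obtain ⟨c, hc, -⟩ := hTFB D.U D.T D.tree _ _ _ (P.fN v0) (P.fN y) (P.fN z)
      (fun h => L.nd v0 y t1 h) (fun h => L.nd y z t2 h) (fun h => L.nd v0 z t6 h)
    obtain ⟨p', q', r', htr, hp', -, -⟩ := hjl (L.pi v0 y c) (L.pi y z c) (L.pi z v0 c)
      ⟨v0, y, z, c, hz, hclne _ _ n1, hclne _ _ n2, hclne _ _ n3, hc, rfl, rfl, rfl⟩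
    have hmin : RMin R := fun K' => by
      have := L.rmin K'
      omega
    apply hFV G D R hmin p' q' r' htr
    rw [Subgroup.eq_bot_iff_forall]
    intro g hg
    have hg' : g • p' = p' := hg
    have h3 := hje g p'
    rw [hg', hp'] at h3
    exact L.chamber_free hs (L.pi_hs hs0 t1 (hclne _ _ n1) c) g h3.symm
  · -- the cluster has at least two points
    have h3 : ∃ v1, v1 ∈ cl D K v0 ∧ v1 ≠ v0 := by
      by_contra hcon2
      push Not at hcon2
      apply hs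
      ext x
      constructor
      · intro h
        exact hcon2 x h
      · intro h
        rw [Set.mem_singleton_iff.1 h]
        exact line_cl_self v0
    obtain ⟨v1, hv1, hv1'⟩ := h3
    rcases Relation.ReflTransGen.cases_head hv1 with h4 | ⟨v2, h4, -⟩
    · exact hv1' h4.symm
    · have hv2 : v2 ∈ cl D K v0 := Relation.ReflTransGen.single h4
      obtain ⟨z, hz⟩ := (L.red.R2 v0 (Or.inr L.hyp0)).2 v2 h4.1
      obtain ⟨n1, n2, n3⟩ := K.tri_ne hz
      have hcl02 : line_cl D K v0 v2 = line_cl D K v0 v0 :=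
        L.cl_eq (by rw [line_cl_of hs0]; exact hv2)
      have h5 : FinOrb G T3 := K.finT.mono hsub
      have h6 : FinOrb G ({({v0, v2, z} : Set K.V)} : Set (Set K.V)) :=
        (Set.finite_singleton _).image _
      have h7 := oc_union (G := G) h5 h6 (by
        rintro s ⟨x, y, z', h, k1, k2, k3, rfl⟩ t ht g hg
        rw [Set.mem_singleton_iff] at ht
        rw [ht] at hg
        have hg2 : g • ({x, y, z'} : Set K.V) = {g • x, g • y, g • z'} := by
          rw [Set.smul_set_insert, Set.smul_set_insert, Set.smul_set_singleton]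
        rw [hg2] at hg
        have m1 : v0 ∈ ({g • x, g • y, g • z'} : Set K.V) := by rw [hg]; simp
        have m2 : v2 ∈ ({g • x, g • y, g • z'} : Set K.V) := by rw [hg]; simp
        have k1' := L.cl_ne_smul g k1
        have k2' := L.cl_ne_smul g k2
        have k3' := L.cl_ne_smul g k3
        simp only [Set.mem_insert_iff, Set.mem_singleton_iff] at m1 m2
        have h02 := hcl02.symm
        rcases m1 with m1 | m1 | m1 <;> rcases m2 with m2 | m2 | m2
        · exact n1 (m1.trans m2.symm)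
        · exact k1' (by rw [← m1, ← m2]; exact h02)
        · exact k3' (by rw [← m1, ← m2]; exact h02)
        · exact k1' (by rw [← m1, ← m2]; exact hcl02)
        · exact n1 (m1.trans m2.symm)
        · exact k2' (by rw [← m1, ← m2]; exact h02)
        · exact k3' (by rw [← m1, ← m2]; exact hcl02)
        · exact k2' (by rw [← m1, ← m2]; exact hcl02)
        · exact n1 (m1.trans m2.symm))
      have h8 : 0 < oc G ({({v0, v2, z} : Set K.V)} : Set (Set K.V)) :=
        oc_pos h6 (Set.singleton_nonempty _)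
      have h9 : oc G (T3 ∪ {({v0, v2, z} : Set K.V)}) ≤ rr K := by
        refine oc_mono K.finT (Set.union_subset hsub ?_)
        rintro s hs'
        rw [Set.mem_singleton_iff.1 hs']
        exact ⟨v0, v2, z, hz, rfl⟩
      omega

end Line_H

end B

/-- finiteness of the set of exits -/
theorem line_exQ_fin (hCMP : ST_CMP) (X : Ctx G) (v : X.V) (u w : X.U)
    (L : Line_H X.P v u w) : (X.exQ v u w).Finite := by
  have key : ∀ u w, Line_H X.P v u w → X.D.arr u w → (X.exQ v u w).Finite := by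
    intro u w L harr
    obtain ⟨-, h2, -, -, h5⟩ := hCMP G X
    obtain ⟨⟨hg, -⟩, hc⟩ := h2 v u w harr ⟨L.hyp0, L.ax0, L.ft0⟩
    rw [hc] at hg
    -- exits inject into the component
    have hinj : Function.Injective (fun p : X.V × X.V × Bool => (if p.2.2 then
        (Sum.inl (p.1, p.2.1, w, u) : X.NP) else Sum.inl (p.1, p.2.1, u, w))) := by
      have hne : u ≠ w := by
        rintro rfl
        exact X.D.arr_asymm _ _ harr harr
      rintro ⟨x, y, o⟩ ⟨x', y', o'⟩ he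
      cases o <;> cases o' <;> simp at he ⊢ <;> grind
    have hsub : X.exQ v u w ⊆ (fun p : X.V × X.V × Bool => (p.1, p.2.1)) ''
        ((fun p : X.V × X.V × Bool => (if p.2.2 then
          (Sum.inl (p.1, p.2.1, w, u) : X.NP) else Sum.inl (p.1, p.2.1, u, w))) ⁻¹'
          {n | n = .inr (cl X.D X.K v, u, w) ∨ ∃ v' y, v' ∈ cl X.D X.K v ∧ Fr X.K v' y ∧
            X.Hon v' y u ∧ X.Hon v' y w ∧
            ((Ax X.P v' u w ∧ y ∈ Sset X.P v' u w ∧ n = .inl (v', y, w, u)) ∨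
             (Ax X.P v' w u ∧ y ∈ Sset X.P v' w u ∧ n = .inl (v', y, u, w)))}) := by
      rintro ⟨p, q⟩ ⟨k1, k2, k3⟩
      have hax := L.ax2_cl Line_H.hs0 k1 L.ax0
      have hp := L.hs_ell (L.hs_cl Line_H.hs0 k1).1
      rcases k3 with ⟨k3, k4, k5⟩ | ⟨k3, k4, k5⟩
      · have k3' : X.P.N p u = w := k3
        have hax' : Ax X.P p u w := by
          subst k3'
          exact (line_ax_iff hp).2 ⟨rfl, line_ax2_N hp hax⟩
        obtain ⟨m1, m2⟩ := h5 p q u w hp hax' k4 k2 k5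
        exact ⟨(p, q, true), Or.inr ⟨p, q, k1, k2, m1, m2, Or.inl ⟨hax', k4, rfl⟩⟩, rfl⟩
      · have k3' : X.P.N p w = u := k3
        have hax' : Ax X.P p w u := by
          subst k3'
          exact (line_ax_iff hp).2 ⟨rfl, line_ax2_N hp (line_ax2_symm hax)⟩
        obtain ⟨m1, m2⟩ := h5 p q w u hp hax' k4 k2 k5
        exact ⟨(p, q, false), Or.inr ⟨p, q, k1, k2, m2, m1, Or.inr ⟨hax', k4, rfl⟩⟩, rfl⟩
    exact ((hg.preimage hinj.injOn).image _).subset hsub
  have hadj := line_ax2_adj L.ax0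
  rcases (X.D.adj_iff _ _).1 hadj with harr | harr
  · exact key u w L harr
  · have h1 := key w u { L with
      ax0 := line_ax2_symm L.ax0
      ft0 := fun g h1 h2 h3 => L.ft0 g h1 h3 h2 } harr
    refine h1.subset ?_
    rintro ⟨p, q⟩ ⟨k1, k2, k3⟩
    exact ⟨k1, k2, k3.symm⟩

theorem st_LINE (hPL : ST_PL) (hSL : ST_SL) (hCLU : ST_CLU) (hFF : ST_FF) (hFV : ST_FV)
    (hCMP : ST_CMP) (hTFB : ST_TFB) (hTFD : ST_TFD) (hTPOT : ST_TPOT) : ST_LINE := by
  intro G _ X v u w h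
  have L : Line_H X.P v u w :=
    ⟨X.red, X.nmax.1, X.nd, hSL, hCLU, hTFD, hTPOT, h.1, h.2.1, h.2.2⟩
  exact L.main hPL hFF hFV hTFB (line_exQ_fin hCMP X v u w L)

end Pool.Agent.Helper93.HZ
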