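import Pool.Agent.Helper93.HZ.Blow
import Pool.Agent.Helper93.HZ.Lib
import Pool.Agent.Helper93.HZ.MM

/-!
# HZ: LINE, part A: the position data of a cluster (7.3)
-/

set_option autoImplicit false

open MulAction Pointwise

namespace Pool.Agent.Helper93.HZ

open Ctx

theorem line_rsymm {α : Type} {r : α → α → Prop} (h : ∀ a b, r a b → r b a) {a b : α}
    (hab : Relation.ReflTransGen r a b) : Relation.ReflTransGen r b a := by
  induction hab with
  | refl => exact Relation.ReflTransGen.refl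
  | tail _ h1 ih => exact (Relation.ReflTransGen.single (h _ _ h1)).trans ih

theorem line_rlift {α β : Type} {r : α → α → Prop} {p : β → β → Prop} (f : α → β)
    (h : ∀ a b, r a b → p (f a) (f b)) {a b : α} (hab : Relation.ReflTransGen r a b) :
    Relation.ReflTransGen p (f a) (f b) := by
  induction hab with
  | refl => exact Relation.ReflTransGen.refl
  | tail _ h1 ih => exact ih.tail (h _ _ h1)

/-! ## Fields on trees -/

section field

variable {U : Type} {T : SimpleGraph U} {N M : U → U}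

theorem line_back (hN : IsField T N) {a b : U} (hab : T.Adj a b) : N a = b ∨ N b = a := by
  by_cases h : N a = b
  · exact Or.inl h
  · right
    by_contra h2
    exact h ((hN.2 a b hab).2 h2)

theorem line_fwd (hN : IsField T N) (hN' : ∀ u, N u ≠ u) (a : U) : T.Adj a (N a) :=
  (hN.1 a).resolve_left (hN' a)

theorem line_N2 (hN : IsField T N) (hN' : ∀ u, N u ≠ u) (a : U) : N (N a) ≠ a :=
  (hN.2 a (N a) (line_fwd hN hN' a)).1 rfl

/-- two rays towards the same end merge -/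
theorem line_merge (hT : T.IsTree) (hN : IsField T N) (u w : U) :
    ∃ a b : ℕ, N^[a] u = N^[b] w := by
  obtain ⟨p⟩ := hT.connected.preconnected u w
  induction p with
  | nil => exact ⟨0, 0, rfl⟩
  | cons h p ih =>
    obtain ⟨a, b, e⟩ := ih
    rcases line_back hN h with h1 | h1
    · refine ⟨a + 1, b, ?_⟩
      rw [Function.iterate_succ_apply, h1, e]
    · refine ⟨a, b + 1, ?_⟩
      rw [← h1, Function.iterate_succ_apply' N b, ← e, ← Function.iterate_succ_apply,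
        Function.iterate_succ_apply']

/-- height function of an end -/
theorem line_height (hTPOT : ST_TPOT) (hT : T.IsTree) (hN : IsField T N) (hN' : ∀ u, N u ≠ u) :
    ∃ h : U → ℤ, ∀ u, h (N u) = h u + 1 := by
  classical
  obtain ⟨f, hf⟩ := hTPOT U T hT.isAcyclic (Multiplicative ℤ)
    (fun a b => if N a = b then Multiplicative.ofAdd 1 else Multiplicative.ofAdd (-1))
    (by
      intro a b hab
      rcases line_back hN hab with h1 | h1
      · have h2 : N b ≠ a := (hN.2 a b hab).1 h1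
        simp only [h1, h2, if_true, if_false]
        rw [← ofAdd_add]; rfl
      · have h2 : N a ≠ b := fun h => (hN.2 a b hab).1 h h1
        simp only [h1, h2, if_true, if_false]
        rw [← ofAdd_add]; rfl)
    (by intro _ _ _ h; exact h.elim)
  refine ⟨fun u => Multiplicative.toAdd (f u), fun u => ?_⟩
  have h1 := hf u (N u) (line_fwd hN hN' u)
  rw [if_pos rfl] at h1
  have h2 : f (N u) = f u * Multiplicative.ofAdd 1 := by rw [h1]; group
  show Multiplicative.toAdd (f (N u)) = Multiplicative.toAdd (f u) + 1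
  rw [h2]; rfl

theorem line_height_iter {h : U → ℤ} (hh : ∀ u, h (N u) = h u + 1) (k : ℕ) (u : U) :
    h (N^[k] u) = h u + k := by
  induction k with
  | zero => simp
  | succ k ih => rw [Function.iterate_succ_apply', hh, ih]; push_cast; ring

theorem line_axN (hN : IsField T N) (hM : IsField T M) (hN' : ∀ u, N u ≠ u) {u : U}
    (h : N u ≠ M u) : M (N u) = u ∧ N (N u) ≠ M (N u) := by
  obtain ⟨h1, h2⟩ := mm_ax hM hN hN' (Ne.symm h)
  exact ⟨h1, h2.symm⟩

theorem line_axN_iter (hN : IsField T N) (hM : IsField T M) (hN' : ∀ u, N u ≠ u) {u : U}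
    (h : N u ≠ M u) (k : ℕ) : N (N^[k] u) ≠ M (N^[k] u) := by
  induction k with
  | zero => exact h
  | succ k ih =>
    rw [Function.iterate_succ_apply']
    exact (line_axN hN hM hN' ih).2

/-- following `N₁` from a vertex of `I(N₁,N₂)` -/
theorem line_onI {N₁ N₂ : U → U} (h1 : IsField T N₁) (h2 : IsField T N₂) (h1' : ∀ u, N₁ u ≠ u)
    {c : U} (hc : OnI N₁ N₂ c) : N₂ (N₁ c) = c ∧ OnI N₁ N₂ (N₁ c) := by
  have h3 : T.Adj c (N₁ c) := line_fwd h1 h1' c
  have h4 : N₂ c ≠ N₁ c := fun h => h1' c (hc h.symm)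
  have h5 : N₂ (N₁ c) = c := (line_back h2 h3).resolve_left h4
  refine ⟨h5, fun h => ?_⟩
  rw [h5] at h
  exact absurd h (line_N2 h1 h1' c)

theorem line_onI_iter {N₁ N₂ : U → U} (h1 : IsField T N₁) (h2 : IsField T N₂)
    (h1' : ∀ u, N₁ u ≠ u) {c : U} (hc : OnI N₁ N₂ c) (k : ℕ) :
    N₂ (N₁^[k + 1] c) = N₁^[k] c ∧ OnI N₁ N₂ (N₁^[k] c) := by
  induction k with
  | zero => exact ⟨(line_onI h1 h2 h1' hc).1, hc⟩
  | succ k ih =>
    have h3 := line_onI h1 h2 h1' ih.2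
    rw [← Function.iterate_succ_apply' N₁ k c] at h3
    have h4 := line_onI h1 h2 h1' h3.2
    rw [Function.iterate_succ_apply' N₁ (k + 1) c]
    exact ⟨h4.1, h3.2⟩

end field

variable {G : Type} [Group G]

/-! ## Axes -/

section ax

variable {D : Setup G} {K : Cx G} {P : Pts D K}

theorem line_ax_iff {x : K.V} (hx : ¬ EllV D K x) {a b : D.U} :
    Ax P x a b ↔ (P.N x a = b ∧ P.N x a ≠ P.M x a) := by
  obtain ⟨hN, hM, -, -⟩ := P.hyp x hx
  constructor
  · rintro ⟨h1, h2, h3⟩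
    refine ⟨h1, fun h => ?_⟩
    have h4 : D.T.Adj a b := by rw [← h1]; exact line_fwd (P.fN x) hN a
    have h5 : P.M x a = b := by rw [← h, h1]
    exact ((P.fM x).2 a b h4).1 h5 h2
  · rintro ⟨h1, h2⟩
    refine ⟨h1, ?_, hN a⟩
    rw [← h1]
    exact (line_axN (P.fN x) (P.fM x) hN h2).1

theorem line_ax_adj {x : K.V} {a b : D.U} (h : Ax P x a b) : D.T.Adj a b := by
  obtain ⟨h1, -, h3⟩ := h
  rw [← h1]
  exact ((P.fN x).1 a).resolve_left h3

theorem line_ax2_adj {x : K.V} {a b : D.U} (h : Ax2 P x a b) : D.T.Adj a b := by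
  rcases h with h | h
  · exact line_ax_adj h
  · exact (line_ax_adj h).symm

theorem line_ax2_symm {x : K.V} {a b : D.U} (h : Ax2 P x a b) : Ax2 P x b a := Or.symm h

theorem line_ax2_smul (g : G) {x : K.V} {a b : D.U} (h : Ax2 P x a b) :
    Ax2 P (g • x) (g • a) (g • b) := by
  rcases h with h | h
  · exact Or.inl (Ax_smul P g h)
  · exact Or.inr (Ax_smul P g h)

/-- an axis edge whose second vertex is the successor is an axis dart -/
theorem line_ax2_N {x : K.V} {a : D.U} (hx : ¬ EllV D K x) (h : Ax2 P x a (P.N x a)) :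
    P.N x a ≠ P.M x a := by
  obtain ⟨hN, hM, -, -⟩ := P.hyp x hx
  rcases h with h | h
  · exact ((line_ax_iff hx).1 h).2
  · exact absurd h.1 (line_N2 (P.fN x) hN a)

/-- both ends of an axis edge are on the axis -/
theorem line_ax2_on {x : K.V} {a b : D.U} (hx : ¬ EllV D K x) (h : Ax2 P x a b) :
    P.N x a ≠ P.M x a ∧ P.N x b ≠ P.M x b := by
  obtain ⟨hN, hM, -, -⟩ := P.hyp x hx
  rcases h with h | h
  · obtain ⟨h1, h2⟩ := (line_ax_iff hx).1 h
    exact ⟨h2, h1 ▸ (line_axN (P.fN x) (P.fM x) hN h2).2⟩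
  · obtain ⟨h1, h2⟩ := (line_ax_iff hx).1 h
    exact ⟨h1 ▸ (line_axN (P.fN x) (P.fM x) hN h2).2, h2⟩

theorem line_ax2_of {x : K.V} {a : D.U} (hx : ¬ EllV D K x) (h : P.N x a ≠ P.M x a) :
    Ax2 P x a (P.N x a) := Or.inl ((line_ax_iff hx).2 ⟨rfl, h⟩)

/-- the ray from any vertex meets the axis -/
theorem line_to_axis {x : K.V} (hx : ¬ EllV D K x) (c : D.U) :
    ∃ k : ℕ, P.N x ((P.N x)^[k] c) ≠ P.M x ((P.N x)^[k] c) := by
  obtain ⟨hN, hM, -, u, hu⟩ := P.hyp x hx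
  obtain ⟨a, b, e⟩ := line_merge D.tree (P.fN x) c u
  exact ⟨a, by rw [e]; exact line_axN_iter (P.fN x) (P.fM x) hN hu b⟩

end ax

/-! ## The hypotheses -/

/-- everything needed for the position data of the cluster of `v0` -/
structure Line_H {D : Setup G} {K : Cx G} (P : Pts D K) (v0 : K.V) (u0 w0 : D.U) : Prop where
  red : Red D K
  rmin : RMin K
  nd : ND D K P
  sl : ST_SL
  clu : ST_CLU
  tfd : ST_TFD
  tpot : ST_TPOT
  hyp0 : ¬ EllV D K v0
  ax0 : Ax2 P v0 u0 w0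
  ft0 : FT D K v0 u0 w0

section defs

variable {D : Setup G} {K : Cx G} (P : Pts D K) (v0 : K.V) (u0 w0 : D.U)

/-- vertices of the translates of the cluster of `v0` -/
def line_Hs (D : Setup G) (K : Cx G) (v0 : K.V) : Set K.V := {x | ∃ g : G, x ∈ cl D K (g • v0)}

/-- special edges of the cluster `C` -/
def line_sp (K : Cx G) (v0 : K.V) (u0 w0 : D.U) (C : Set K.V) (a b : D.U) : Prop :=
  ∃ g : G, g • cl D K v0 = C ∧ ((a = g • u0 ∧ b = g • w0) ∨ (a = g • w0 ∧ b = g • u0))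

/-- one step inside a chamber -/
def line_st (C : Set K.V) (a b : D.U) : Prop :=
  (∃ x ∈ C, Ax2 P x a b) ∧ ¬ line_sp K v0 u0 w0 C a b

/-- chamber of `c` -/
def line_ch (C : Set K.V) (c : D.U) : Set D.U :=
  {c' | Relation.ReflTransGen (line_st P v0 u0 w0 C) c c'}

end defs

section basic

variable {D : Setup G} {K : Cx G} {P : Pts D K} {v0 : K.V} {u0 w0 : D.U}

theorem line_sp_symm {C : Set K.V} {a b : D.U} (h : line_sp K v0 u0 w0 C a b) :
    line_sp K v0 u0 w0 C b a := by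
  obtain ⟨g, h1, h2⟩ := h
  refine ⟨g, h1, ?_⟩
  rcases h2 with ⟨h2, h3⟩ | ⟨h2, h3⟩
  · exact Or.inr ⟨h3, h2⟩
  · exact Or.inl ⟨h3, h2⟩

theorem line_sp_smul (k : G) {C : Set K.V} {a b : D.U} (h : line_sp K v0 u0 w0 C a b) :
    line_sp K v0 u0 w0 (k • C) (k • a) (k • b) := by
  obtain ⟨g, h1, h2⟩ := h
  refine ⟨k * g, by rw [mul_smul, h1], ?_⟩
  rcases h2 with ⟨h2, h3⟩ | ⟨h2, h3⟩
  · exact Or.inl ⟨by rw [mul_smul, h2], by rw [mul_smul, h3]⟩
  · exact Or.inr ⟨by rw [mul_smul, h2], by rw [mul_smul, h3]⟩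

theorem line_sp_smul_iff (k : G) {C : Set K.V} {a b : D.U} :
    line_sp K v0 u0 w0 (k • C) (k • a) (k • b) ↔ line_sp K v0 u0 w0 C a b := by
  constructor
  · intro h
    have := line_sp_smul k⁻¹ h
    simpa only [inv_smul_smul] using this
  · exact line_sp_smul k

theorem line_st_symm {C : Set K.V} {a b : D.U} (h : line_st P v0 u0 w0 C a b) :
    line_st P v0 u0 w0 C b a := by
  obtain ⟨⟨x, hx, h1⟩, h2⟩ := h
  exact ⟨⟨x, hx, line_ax2_symm h1⟩, fun h => h2 (line_sp_symm h)⟩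

theorem line_st_smul (k : G) {C : Set K.V} {a b : D.U} (h : line_st P v0 u0 w0 C a b) :
    line_st P v0 u0 w0 (k • C) (k • a) (k • b) := by
  obtain ⟨⟨x, hx, h1⟩, h2⟩ := h
  exact ⟨⟨k • x, Set.smul_mem_smul_set hx, line_ax2_smul k h1⟩,
    fun h => h2 ((line_sp_smul_iff k).1 h)⟩

theorem line_ch_self (C : Set K.V) (c : D.U) : c ∈ line_ch P v0 u0 w0 C c :=
  Relation.ReflTransGen.refl

theorem line_ch_symm {C : Set K.V} {a b : D.U} (h : b ∈ line_ch P v0 u0 w0 C a) :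
    a ∈ line_ch P v0 u0 w0 C b :=
  line_rsymm (fun _ _ h => line_st_symm h) h

theorem line_ch_eq {C : Set K.V} {a b : D.U} (h : b ∈ line_ch P v0 u0 w0 C a) :
    line_ch P v0 u0 w0 C b = line_ch P v0 u0 w0 C a := by
  ext c
  exact ⟨fun h1 => Relation.ReflTransGen.trans h h1,
    fun h1 => Relation.ReflTransGen.trans (line_ch_symm h) h1⟩

theorem line_ch_step {C : Set K.V} {a b : D.U} (h : line_st P v0 u0 w0 C a b) :
    line_ch P v0 u0 w0 C b = line_ch P v0 u0 w0 C a :=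
  line_ch_eq (Relation.ReflTransGen.single h)

theorem line_ch_smul_sub (k : G) (C : Set K.V) (c : D.U) :
    k • line_ch P v0 u0 w0 C c ⊆ line_ch P v0 u0 w0 (k • C) (k • c) := by
  rintro _ ⟨c', hc', rfl⟩
  exact line_rlift (fun a : D.U => k • a) (fun a b h => line_st_smul k h) hc'

theorem line_ch_smul (k : G) (C : Set K.V) (c : D.U) :
    line_ch P v0 u0 w0 (k • C) (k • c) = k • line_ch P v0 u0 w0 C c := by
  apply Set.Subset.antisymm
  · have h := line_ch_smul_sub (P := P) (v0 := v0) (u0 := u0) (w0 := w0) k⁻¹ (k • C) (k • c)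
    rw [inv_smul_smul, inv_smul_smul] at h
    intro c' hc'
    exact ⟨k⁻¹ • c', h (Set.smul_mem_smul_set hc'), smul_inv_smul k c'⟩
  · exact line_ch_smul_sub k C c

end basic

/-! ## Facts on the cluster -/

section clus

variable {D : Setup G} {K : Cx G} {P : Pts D K} {v0 : K.V} {u0 w0 : D.U}

theorem line_cl_self (x : K.V) : x ∈ cl D K x := Relation.ReflTransGen.refl

theorem line_ell_smul {g : G} {x : K.V} (h : ¬ EllV D K x) : ¬ EllV D K (g • x) :=
  fun h1 => h ((EllV_smul_iff g).1 h1)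

/-- vertices of one cluster have commensurable stabilizers -/
theorem line_com {v v' : K.V} (P : Pts D K) (h : v' ∈ cl D K v) :
    ∃ k : ℕ, 0 < k ∧ ∀ g : G, g • v = v → (g ^ k) • v' = v' := by
  have h' : Relation.ReflTransGen (TF D K) v v' := h
  clear h
  induction h' with
  | refl => exact ⟨1, one_pos, fun g hg => by rw [pow_one]; exact hg⟩
  | @tail b c hb hbc ih =>
    obtain ⟨k, hk, hk2⟩ := ih
    obtain ⟨-, hb1, -, hb2⟩ := hbc
    have h3 : ∃ g : G, g • b = b ∧ g • c = c ∧ g ≠ 1 := by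
      by_contra hcon
      push Not at hcon
      exact hb2 hcon
    obtain ⟨g, hg1, hg2, hg3⟩ := h3
    obtain ⟨-, -, ⟨z, -, hz, -⟩, -⟩ := P.hyp b hb1
    have hg' : g ∈ stabilizer G b := hg1
    rw [hz] at hg'
    obtain ⟨n, rfl⟩ := Subgroup.mem_zpowers_iff.1 hg'
    have hn : n ≠ 0 := by
      rintro rfl
      exact hg3 (zpow_zero _)
    refine ⟨k * n.natAbs, Nat.mul_pos hk (Int.natAbs_pos.2 hn), fun h hh => ?_⟩
    have h4 : h ^ k ∈ stabilizer G b := hk2 h hh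
    rw [hz] at h4
    obtain ⟨m, hm⟩ := Subgroup.mem_zpowers_iff.1 h4
    have h5 : h ^ (k * n.natAbs) ∈ Subgroup.zpowers (z ^ n) := by
      rw [pow_mul, ← hm, Subgroup.mem_zpowers_iff]
      rcases Int.natAbs_eq n with hn' | hn'
      · refine ⟨m, ?_⟩
        rw [← zpow_mul, ← zpow_natCast, ← zpow_mul, ← hn', mul_comm]
      · refine ⟨-m, ?_⟩
        have : (n.natAbs : ℤ) = - n := by omega
        rw [← zpow_mul, ← zpow_natCast, ← zpow_mul, this]
        congr 1; ring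
    have h6 : Subgroup.zpowers (z ^ n) ≤ stabilizer G c := by
      rw [Subgroup.zpowers_le]
      exact hg2
    exact h6 h5

theorem line_nfr {v v' : K.V} (P : Pts D K) (hv : ¬ EllV D K v) (h : v' ∈ cl D K v) :
    ¬ Fr K v v' := by
  intro hf
  obtain ⟨k, hk, hk2⟩ := line_com P h
  obtain ⟨-, -, ⟨z, -, hz, hz1, -⟩, -⟩ := P.hyp v hv
  have h1 : z • v = v := by
    have : z ∈ stabilizer G v := by rw [hz]; exact Subgroup.mem_zpowers z
    exact this
  have h2 : z ^ k • v = v := by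
    have : z ^ k ∈ stabilizer G v := (stabilizer G v).pow_mem h1 k
    exact this
  have h3 := hf (z ^ k) h2 (hk2 z h1)
  exact hz1 (isOfFinOrder_iff_pow_eq_one.2 ⟨k, hk, h3⟩)

namespace Line_H

variable (L : Line_H P v0 u0 w0)
include L

theorem hs_ell {x : K.V} (hx : x ∈ line_Hs D K v0) : ¬ EllV D K x := by
  obtain ⟨g, hg⟩ := hx
  exact (L.clu G D K P L.nd _ _ (line_ell_smul L.hyp0) hg).1

theorem hs_cl {x y : K.V} (hx : x ∈ line_Hs D K v0) (hy : y ∈ cl D K x) :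
    y ∈ line_Hs D K v0 ∧ cl D K y = cl D K x := by
  obtain ⟨g, hg⟩ := hx
  have h1 := (L.clu G D K P L.nd _ _ (line_ell_smul L.hyp0) hg).2.1
  have h2 : y ∈ cl D K (g • v0) := by rw [← h1]; exact hy
  have h3 := (L.clu G D K P L.nd _ _ (line_ell_smul L.hyp0) h2).2.1
  exact ⟨⟨g, h2⟩, h3.trans h1.symm⟩

theorem hs_g {x : K.V} (hx : x ∈ line_Hs D K v0) : ∃ g : G, g • cl D K v0 = cl D K x := by
  obtain ⟨g, hg⟩ := hx
  have h1 := (L.clu G D K P L.nd _ _ (line_ell_smul L.hyp0) hg).2.1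
  have h2 := (L.clu G D K P L.nd _ _ L.hyp0 (line_cl_self v0)).2.2.2.2.2 g
  exact ⟨g, h2.trans h1.symm⟩

theorem hs_smul (g : G) {x : K.V} (hx : x ∈ line_Hs D K v0) : g • x ∈ line_Hs D K v0 ∧
    cl D K (g • x) = g • cl D K x := by
  have h2 := (L.clu G D K P L.nd _ _ (L.hs_ell hx) (line_cl_self x)).2.2.2.2.2 g
  refine ⟨?_, h2.symm⟩
  obtain ⟨k, hk⟩ := L.hs_g hx
  have h3 := (L.clu G D K P L.nd _ _ L.hyp0 (line_cl_self v0)).2.2.2.2.2 (g * k)
  refine ⟨g * k, ?_⟩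
  rw [← h3, mul_smul, hk]
  exact Set.smul_mem_smul_set (line_cl_self x)

theorem hs_smul_iff (g : G) {x : K.V} : g • x ∈ line_Hs D K v0 ↔ x ∈ line_Hs D K v0 := by
  constructor
  · intro h
    have := (L.hs_smul g⁻¹ h).1
    rwa [inv_smul_smul] at this
  · intro h
    exact (L.hs_smul g h).1

omit L in
theorem hs0 : v0 ∈ line_Hs D K v0 := ⟨1, by rw [one_smul]; exact line_cl_self v0⟩

/-- two vertices of a cluster have the same pair of ends -/
theorem ends {x y : K.V} (hx : x ∈ line_Hs D K v0) (hy : y ∈ cl D K x) :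
    (P.N y = P.N x ∧ P.M y = P.M x) ∨ (P.N y = P.M x ∧ P.M y = P.N x) :=
  (L.clu G D K P L.nd _ _ (L.hs_ell hx) hy).2.2.1

theorem ax2_cl {x y : K.V} (hx : x ∈ line_Hs D K v0) (hy : y ∈ cl D K x) {a b : D.U}
    (h : Ax2 P x a b) : Ax2 P y a b := by
  have hx' := L.hs_ell hx
  have hy' := L.hs_ell (L.hs_cl hx hy).1
  obtain ⟨hN, hM, -, -⟩ := P.hyp x hx'
  rcases L.ends hx hy with ⟨h1, h2⟩ | ⟨h1, h2⟩
  · rcases h with h | h
    · refine Or.inl ⟨?_, ?_, ?_⟩
      · rw [h1]; exact h.1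
      · rw [h2]; exact h.2.1
      · rw [h1]; exact h.2.2
    · refine Or.inr ⟨?_, ?_, ?_⟩
      · rw [h1]; exact h.1
      · rw [h2]; exact h.2.1
      · rw [h1]; exact h.2.2
  · rcases h with h | h
    · refine Or.inr ⟨?_, ?_, ?_⟩
      · rw [h1]; exact h.2.1
      · rw [h2]; exact h.1
      · rw [h1]; exact hM b
    · refine Or.inl ⟨?_, ?_, ?_⟩
      · rw [h1]; exact h.2.1
      · rw [h2]; exact h.1
      · rw [h1]; exact hM a

/-- special edges are axis edges -/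
theorem sp_ax {x : K.V} (hx : x ∈ line_Hs D K v0) {a b : D.U}
    (h : line_sp K v0 u0 w0 (cl D K x) a b) : Ax2 P x a b := by
  obtain ⟨g, h1, h2⟩ := h
  have h3 : x ∈ cl D K (g • v0) := by
    have h4 := (L.clu G D K P L.nd _ _ L.hyp0 (line_cl_self v0)).2.2.2.2.2 g
    rw [← h4, h1]
    exact line_cl_self x
  have h5 := line_ax2_smul g L.ax0
  have h6 : g • v0 ∈ line_Hs D K v0 := ⟨g, line_cl_self _⟩
  have h7 := L.ax2_cl h6 h3 h5
  rcases h2 with ⟨rfl, rfl⟩ | ⟨rfl, rfl⟩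
  · exact h7
  · exact line_ax2_symm h7

/-- `FT` for all special edges; the action of the stabilizer of a cluster on the axis is free -/
theorem ft {x : K.V} (hx : x ∈ line_Hs D K v0) {a b : D.U} (h : Ax2 P x a b) (g : G)
    (hg : g • cl D K x = cl D K x) (ha : g • a = a) (hb : g • b = b) : g = 1 := by
  obtain ⟨k, hk⟩ := L.hs_g hx
  have hxk : k • v0 ∈ cl D K x := by rw [← hk]; exact Set.smul_mem_smul_set (line_cl_self v0)
  have h1 := L.ax2_cl hx hxk h
  have h2 := line_ax2_smul k⁻¹ h1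
  rw [inv_smul_smul] at h2
  have h3 := (L.clu G D K P L.nd _ _ L.hyp0 (line_cl_self v0)).2.2.2.2.1 _ _ _ _ L.ax0 h2 L.ft0
  have h4 := h3 (k⁻¹ * g * k) (by rw [mul_smul, mul_smul, hk, hg, ← hk, inv_smul_smul])
    (by rw [mul_smul, mul_smul, smul_inv_smul, ha]) (by rw [mul_smul, mul_smul, smul_inv_smul, hb])
  have h5 : g = k * (k⁻¹ * g * k) * k⁻¹ := by group
  rw [h5, h4]; group

/-- an edge leaving a cluster is free -/
theorem free_out {x y : K.V} (hx : x ∈ line_Hs D K v0) (hxy : K.adj x y) (hy : y ∉ cl D K x) :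
    Fr K x y := by
  intro g hg1 hg2
  by_contra hne
  have hx' := L.hs_ell hx
  apply hy
  have hy' : ¬ EllV D K y := by
    rintro ⟨u, hu⟩
    exact hne (mm_hyp L.tfd P hx' hg1 ⟨u, hu g hg2⟩)
  exact Relation.ReflTransGen.single ⟨hxy, hx', hy', fun hf => hne (hf g hg1 hg2)⟩

/-- adjacent vertices of a cluster are joined by an edge of type (f) -/
theorem tf_in {x y : K.V} (hx : x ∈ line_Hs D K v0) (hxy : K.adj x y) (hy : y ∈ cl D K x) :
    TF D K x y :=
  ⟨hxy, L.hs_ell hx, L.hs_ell (L.hs_cl hx hy).1, line_nfr P (L.hs_ell hx) hy⟩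

end Line_H

end clus

/-! ## Positions -/

section pos

variable {D : Setup G} {K : Cx G} (P : Pts D K) (v0 : K.V) (u0 w0 : D.U)

/-- underlying set of the set of positions -/
def line_Wp (p : K.V ⊕ (Set K.V × Set D.U)) : Prop :=
  match p with
  | .inl x => x ∉ line_Hs D K v0
  | .inr (C, S) => ∃ x c, x ∈ line_Hs D K v0 ∧ P.N x c ≠ P.M x c ∧ C = cl D K x ∧
      S = line_ch P v0 u0 w0 C c

/-- the set of positions -/
abbrev line_W : Type := {p : K.V ⊕ (Set K.V × Set D.U) // line_Wp P v0 u0 w0 p}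

open Classical in
/-- the classes -/
noncomputable def line_cl (D : Setup G) (K : Cx G) (v0 x : K.V) : Set K.V :=
  if x ∈ line_Hs D K v0 then cl D K x else {x}

/-- the fibration -/
def line_rho (p : line_W P v0 u0 w0) : Set K.V :=
  match p.1 with
  | .inl x => {x}
  | .inr (C, _) => C

/-- adjacent chambers -/
def line_ss (p q : line_W P v0 u0 w0) : Prop := p ≠ q ∧ ∃ x a b, x ∈ line_Hs D K v0 ∧
  Ax2 P x a b ∧ p.1 = .inr (cl D K x, line_ch P v0 u0 w0 (cl D K x) a) ∧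
  q.1 = .inr (cl D K x, line_ch P v0 u0 w0 (cl D K x) b)

/-- the `k`-th edge of the ray from `c` to `ξ_x` is special with `y` in `S` -/
def line_gd (x y : K.V) (c : D.U) (k : ℕ) : Prop :=
  line_sp K v0 u0 w0 (cl D K x) ((P.N x)^[k] c) ((P.N x)^[k + 1] c) ∧
    y ∈ Sset P x ((P.N x)^[k] c) ((P.N x)^[k + 1] c)

open Classical in
/-- tail of the hindmost element of `Λ` -/
noncomputable def line_tl (x y : K.V) (c : D.U) : D.U :=
  if h : ∃ k, line_gd P v0 u0 w0 x y c k then (P.N x)^[Nat.find h] c else c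

open Classical in
/-- the position, as an element of the ambient type -/
noncomputable def line_pa (x y : K.V) (c : D.U) : K.V ⊕ (Set K.V × Set D.U) :=
  if x ∈ line_Hs D K v0 then
    .inr (cl D K x, line_ch P v0 u0 w0 (cl D K x) (line_tl P v0 u0 w0 x y c)) else .inl x

end pos

section posl

variable {D : Setup G} {K : Cx G} {P : Pts D K} {v0 : K.V} {u0 w0 : D.U}

theorem line_tl_eq {x y : K.V} {c : D.U} {k : ℕ} (hk : line_gd P v0 u0 w0 x y c k)
    (hj : ∀ j < k, ¬ line_gd P v0 u0 w0 x y c j) :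
    line_tl P v0 u0 w0 x y c = (P.N x)^[k] c := by
  classical
  have h : ∃ k, line_gd P v0 u0 w0 x y c k := ⟨k, hk⟩
  unfold line_tl
  rw [dif_pos h, (Nat.find_eq_iff h).2 ⟨hk, hj⟩]

theorem line_min {p : ℕ → Prop} (h : ∃ k, p k) : ∃ k, p k ∧ ∀ j < k, ¬ p j := by
  classical
  exact ⟨Nat.find h, Nat.find_spec h, fun j hj => Nat.find_min h hj⟩

namespace Line_H

variable (L : Line_H P v0 u0 w0)
include L

theorem wp_smul (g : G) {p : K.V ⊕ (Set K.V × Set D.U)} (hp : line_Wp P v0 u0 w0 p) :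
    line_Wp P v0 u0 w0 (g • p) := by
  rcases p with x | ⟨C, S⟩
  · exact fun h => hp ((L.hs_smul_iff g).1 h)
  · obtain ⟨x, c, h1, h2, h3, h4⟩ := hp
    refine ⟨g • x, g • c, (L.hs_smul g h1).1, ?_, ?_, ?_⟩
    · rw [P.eN, P.eM]
      exact fun h => h2 (smul_left_cancel g h)
    · rw [(L.hs_smul g h1).2, h3]
    · show g • S = line_ch P v0 u0 w0 (g • C) (g • c)
      rw [line_ch_smul, h4]

/-- the action on positions -/
@[reducible] def act : MulAction G (line_W P v0 u0 w0) where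
  smul g p := ⟨g • p.1, L.wp_smul g p.2⟩
  one_smul p := Subtype.ext (one_smul G p.1)
  mul_smul g h p := Subtype.ext (mul_smul g h p.1)

theorem sp_N {x : K.V} (hx : x ∈ line_Hs D K v0) {a : D.U}
    (h : line_sp K v0 u0 w0 (cl D K x) a (P.N x a)) : P.N x a ≠ P.M x a ∧ Ax P x a (P.N x a) := by
  have h1 := line_ax2_N (L.hs_ell hx) (L.sp_ax hx h)
  exact ⟨h1, (line_ax_iff (L.hs_ell hx)).2 ⟨rfl, h1⟩⟩

theorem gd_N {x y : K.V} (hx : x ∈ line_Hs D K v0) {c : D.U} {k : ℕ}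
    (h : line_gd P v0 u0 w0 x y c k) :
    P.N x ((P.N x)^[k] c) ≠ P.M x ((P.N x)^[k] c) ∧
      Ax P x ((P.N x)^[k] c) ((P.N x)^[k + 1] c) := by
  have h1 := h.1
  rw [Function.iterate_succ_apply' (P.N x) k c] at h1 ⊢
  exact L.sp_N hx h1

theorem gd_smul (g : G) {x y : K.V} (hx : x ∈ line_Hs D K v0) {c : D.U} {k : ℕ} :
    line_gd P v0 u0 w0 (g • x) (g • y) (g • c) k ↔ line_gd P v0 u0 w0 x y c k := by
  have hx' := L.hs_ell hx
  have key : ∀ y, line_gd P v0 u0 w0 x y c k → line_gd P v0 u0 w0 (g • x) (g • y) (g • c) k := by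
    intro y h
    have h1 := (L.gd_N hx h).2
    have h2 := (L.sl G D K P L.red L.rmin L.nd x _ _ hx' h1).2.2.2.2.2 g y
    refine ⟨?_, ?_⟩
    · rw [(L.hs_smul g hx).2, P.N_iter, P.N_iter]
      exact line_sp_smul g h.1
    · rw [P.N_iter, P.N_iter]
      exact h2.2 h.2
  constructor
  · intro h
    have h0 := h.1
    rw [(L.hs_smul g hx).2, P.N_iter, P.N_iter, line_sp_smul_iff] at h0
    have h1 : Ax P x ((P.N x)^[k] c) ((P.N x)^[k + 1] c) := by
      have h3 := h0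
      rw [Function.iterate_succ_apply' (P.N x) k c] at h3 ⊢
      exact (L.sp_N hx h3).2
    have h2 := (L.sl G D K P L.red L.rmin L.nd x _ _ hx' h1).2.2.2.2.2 g y
    refine ⟨h0, ?_⟩
    have h4 := h.2
    rw [P.N_iter, P.N_iter] at h4
    exact h2.1 h4
  · exact key y

/-- `S` grows along the axis -/
theorem up {x y : K.V} (hx : x ∈ line_Hs D K v0) {a : D.U} (ha : P.N x a ≠ P.M x a)
    (h : y ∈ Sset P x a (P.N x a)) (k : ℕ) :
    y ∈ Sset P x ((P.N x)^[k] a) ((P.N x)^[k + 1] a) := by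
  have hx' := L.hs_ell hx
  obtain ⟨hN, hM, -, -⟩ := P.hyp x hx'
  induction k with
  | zero => exact h
  | succ k ih =>
    have h1 := line_axN_iter (P.fN x) (P.fM x) hN ha k
    have h2 : Ax P x ((P.N x)^[k] a) ((P.N x)^[k + 1] a) := by
      rw [Function.iterate_succ_apply' (P.N x) k a]
      exact (line_ax_iff hx').2 ⟨rfl, h1⟩
    have h3 := (L.sl G D K P L.red L.rmin L.nd x _ _ hx' h2).1 ih
    rw [← Function.iterate_succ_apply' (P.N x) (k + 1) a] at h3
    exact h3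

/-- there is a special dart on the axis of `x` -/
theorem ex_sp {x : K.V} (hx : x ∈ line_Hs D K v0) :
    ∃ a, line_sp K v0 u0 w0 (cl D K x) a (P.N x a) := by
  obtain ⟨g, hg⟩ := L.hs_g hx
  have h1 : line_sp K v0 u0 w0 (cl D K x) (g • u0) (g • w0) := ⟨g, hg, Or.inl ⟨rfl, rfl⟩⟩
  rcases L.sp_ax hx h1 with h2 | h2
  · exact ⟨g • u0, by rw [h2.1]; exact h1⟩
  · exact ⟨g • w0, by rw [h2.1]; exact line_sp_symm h1⟩

/-- special darts are cofinal on every ray towards `ξ_x` -/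
theorem cof {x : K.V} (hx : x ∈ line_Hs D K v0) (c : D.U) (m : ℕ) : ∃ k, m ≤ k ∧
    line_sp K v0 u0 w0 (cl D K x) ((P.N x)^[k] c) ((P.N x)^[k + 1] c) := by
  have hx' := L.hs_ell hx
  obtain ⟨hN, hM, ⟨z, k, hz, hz1, hk, hzk⟩, -⟩ := P.hyp x hx'
  obtain ⟨a, ha⟩ := L.ex_sp hx
  have ha' := (L.sp_N hx ha).1
  have hzx : z • x = x := by
    have : z ∈ stabilizer G x := by rw [hz]; exact Subgroup.mem_zpowers z
    exact this
  have hcl : z • cl D K x = cl D K x := by rw [← (L.hs_smul z hx).2, hzx]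
  have hNz : ∀ u, P.N x (z • u) = z • P.N x u := by
    intro u
    have := P.eN z x u
    rw [hzx] at this
    exact this
  have h1 : ∀ n : ℕ, line_sp K v0 u0 w0 (cl D K x) ((P.N x)^[k * n] a)
      (P.N x ((P.N x)^[k * n] a)) := by
    intro n
    induction n with
    | zero => exact ha
    | succ n ih =>
      have h2 := line_sp_smul z ih
      rw [hcl, ← hNz, hzk _ (line_axN_iter (P.fN x) (P.fM x) hN ha' (k * n)),
        ← Function.iterate_add_apply] at h2
      rw [Nat.mul_succ, add_comm]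
      exact h2
  obtain ⟨i, j, e⟩ := line_merge D.tree (P.fN x) c a
  -- position `k * n` of `a` is position `k * n - j + i` of `c`
  have h3 : j + m ≤ k * (j + m) := Nat.le_mul_of_pos_left _ hk
  refine ⟨k * (j + m) - j + i, by omega, ?_⟩
  have h4 : (P.N x)^[k * (j + m) - j + i] c = (P.N x)^[k * (j + m)] a := by
    rw [Function.iterate_add_apply, e, ← Function.iterate_add_apply]
    congr 1; omega
  rw [Function.iterate_succ_apply' (P.N x), h4]
  exact h1 _

/-- existence of a good index -/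
theorem ex_gd {x y : K.V} (hx : x ∈ line_Hs D K v0) (hxy : K.adj x y) (hfr : Fr K x y)
    (c : D.U) : ∃ k, line_gd P v0 u0 w0 x y c k := by
  have hx' := L.hs_ell hx
  obtain ⟨hN, hM, -, -⟩ := P.hyp x hx'
  obtain ⟨i, hi⟩ := line_to_axis (P := P) hx' c
  have h1 : Ax P x ((P.N x)^[i] c) (P.N x ((P.N x)^[i] c)) := (line_ax_iff hx').2 ⟨rfl, hi⟩
  obtain ⟨k₀, hk₀⟩ := (L.sl G D K P L.red L.rmin L.nd x _ _ hx' h1).2.2.1 y hxy hfr
  obtain ⟨k, hk1, hk2⟩ := L.cof hx c (i + k₀)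
  refine ⟨k, hk2, ?_⟩
  have h3 := hk₀ (k - i) (by omega)
  rw [← Function.iterate_add_apply, ← Function.iterate_add_apply] at h3
  rw [show k - i + i = k by omega, show k - i + 1 + i = k + 1 by omega] at h3
  exact h3

theorem tl_smul (g : G) {x y : K.V} (hx : x ∈ line_Hs D K v0) (hxy : K.adj x y) (hfr : Fr K x y)
    (c : D.U) : line_tl P v0 u0 w0 (g • x) (g • y) (g • c) = g • line_tl P v0 u0 w0 x y c := by
  obtain ⟨k, h1, h2⟩ := line_min (L.ex_gd hx hxy hfr c)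
  rw [line_tl_eq h1 h2, line_tl_eq ((L.gd_smul g hx).2 h1)
    (fun j hj h => h2 j hj ((L.gd_smul g hx).1 h)), P.N_iter]

/-- non-special axis edges do not change the chamber -/
theorem ch_ray {x : K.V} (hx : x ∈ line_Hs D K v0) {a : D.U} (ha : P.N x a ≠ P.M x a) (k : ℕ)
    (h : ∀ j < k, ¬ line_sp K v0 u0 w0 (cl D K x) ((P.N x)^[j] a) ((P.N x)^[j + 1] a)) :
    line_ch P v0 u0 w0 (cl D K x) ((P.N x)^[k] a) = line_ch P v0 u0 w0 (cl D K x) a := by
  have hx' := L.hs_ell hx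
  obtain ⟨hN, hM, -, -⟩ := P.hyp x hx'
  induction k with
  | zero => rfl
  | succ k ih =>
    rw [← ih (fun j hj => h j (by omega))]
    apply line_ch_step
    refine ⟨⟨x, line_cl_self x, ?_⟩, h k (Nat.lt_succ_self k)⟩
    rw [Function.iterate_succ_apply' (P.N x)]
    exact line_ax2_of hx' (line_axN_iter (P.fN x) (P.fM x) hN ha k)

theorem tl_axis {x y : K.V} (hx : x ∈ line_Hs D K v0) (hxy : K.adj x y) (hfr : Fr K x y)
    (c : D.U) : P.N x (line_tl P v0 u0 w0 x y c) ≠ P.M x (line_tl P v0 u0 w0 x y c) := by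
  obtain ⟨k, h1, h2⟩ := line_min (L.ex_gd hx hxy hfr c)
  rw [line_tl_eq h1 h2]
  exact (L.gd_N hx h1).1

/-- change of the tail on crossing an edge -/
theorem tl_cross {x y : K.V} (hx : x ∈ line_Hs D K v0) (hxy : K.adj x y) (hfr : Fr K x y)
    {u w : D.U} (hc : P.N x w = u) :
    line_tl P v0 u0 w0 x y w = line_tl P v0 u0 w0 x y u ∨
    (line_sp K v0 u0 w0 (cl D K x) w u ∧ y ∈ Sset P x w u ∧ line_tl P v0 u0 w0 x y w = w ∧
      line_ch P v0 u0 w0 (cl D K x) (line_tl P v0 u0 w0 x y u) =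
        line_ch P v0 u0 w0 (cl D K x) u) := by
  have hx' := L.hs_ell hx
  obtain ⟨hN, hM, -, -⟩ := P.hyp x hx'
  subst hc
  have hsh : ∀ k, line_gd P v0 u0 w0 x y w (k + 1) ↔ line_gd P v0 u0 w0 x y (P.N x w) k := by
    intro k
    unfold line_gd
    rw [Function.iterate_succ_apply (P.N x) k w, Function.iterate_succ_apply (P.N x) (k + 1) w]
  obtain ⟨k, h1, h2⟩ := line_min (L.ex_gd hx hxy hfr (P.N x w))
  by_cases h0 : line_gd P v0 u0 w0 x y w 0
  · right
    refine ⟨h0.1, h0.2, line_tl_eq h0 (fun j hj => absurd hj (Nat.not_lt_zero j)), ?_⟩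
    rw [line_tl_eq h1 h2]
    have hw : P.N x w ≠ P.M x w := (L.gd_N hx h0).1
    have h02 : y ∈ Sset P x w (P.N x w) := h0.2
    have hu : P.N x (P.N x w) ≠ P.M x (P.N x w) := (line_axN (P.fN x) (P.fM x) hN hw).2
    apply L.ch_ray hx hu
    intro j hj hsp
    apply h2 j hj
    refine ⟨hsp, ?_⟩
    have := L.up hx hw h02 (j + 1)
    rw [Function.iterate_succ_apply (P.N x) j w,
      Function.iterate_succ_apply (P.N x) (j + 1) w] at this
    exact this
  · left
    rw [line_tl_eq h1 h2]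
    refine line_tl_eq (k := k + 1) ((hsh k).2 h1) ?_
    intro j hj h
    rcases j with _ | j
    · exact h0 h
    · exact h2 j (by omega) ((hsh j).1 h)

end Line_H

end posl

/-! ## Front edges of chambers, stabilizers of chambers -/

section front

variable {D : Setup G} {K : Cx G} {P : Pts D K} {v0 : K.V} {u0 w0 : D.U}

open Classical in
/-- the last vertex of the chamber of `c` in the direction of `N` -/
noncomputable def line_fr (K : Cx G) (v0 : K.V) (u0 w0 : D.U) (C : Set K.V) (N : D.U → D.U)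
    (c : D.U) : D.U :=
  if h : ∃ k : ℕ, line_sp K v0 u0 w0 C (N^[k] c) (N^[k + 1] c) then N^[Nat.find h] c else c

theorem line_fr_eq {C : Set K.V} {N : D.U → D.U} {c : D.U} {k : ℕ}
    (hk : line_sp K v0 u0 w0 C (N^[k] c) (N^[k + 1] c))
    (hj : ∀ j < k, ¬ line_sp K v0 u0 w0 C (N^[j] c) (N^[j + 1] c)) :
    line_fr K v0 u0 w0 C N c = N^[k] c := by
  classical
  have h : ∃ k : ℕ, line_sp K v0 u0 w0 C (N^[k] c) (N^[k + 1] c) := ⟨k, hk⟩
  unfold line_fr
  rw [dif_pos h, (Nat.find_eq_iff h).2 ⟨hk, hj⟩]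

namespace Line_H

variable (L : Line_H P v0 u0 w0)
include L

theorem fr_spec {x : K.V} (hx : x ∈ line_Hs D K v0) (c : D.U) :
    ∃ k : ℕ, line_fr K v0 u0 w0 (cl D K x) (P.N x) c = (P.N x)^[k] c ∧
      line_sp K v0 u0 w0 (cl D K x) ((P.N x)^[k] c) ((P.N x)^[k + 1] c) ∧
      ∀ j < k, ¬ line_sp K v0 u0 w0 (cl D K x) ((P.N x)^[j] c) ((P.N x)^[j + 1] c) := by
  obtain ⟨k, -, hk⟩ := L.cof hx c 0
  obtain ⟨k, h1, h2⟩ := line_min (p := fun k =>
    line_sp K v0 u0 w0 (cl D K x) ((P.N x)^[k] c) ((P.N x)^[k + 1] c)) ⟨k, hk⟩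
  exact ⟨k, line_fr_eq h1 h2, h1, h2⟩

theorem fr_sp {x : K.V} (hx : x ∈ line_Hs D K v0) (c : D.U) :
    line_sp K v0 u0 w0 (cl D K x) (line_fr K v0 u0 w0 (cl D K x) (P.N x) c)
      (P.N x (line_fr K v0 u0 w0 (cl D K x) (P.N x) c)) := by
  obtain ⟨k, h1, h2, -⟩ := L.fr_spec hx c
  rw [h1, ← Function.iterate_succ_apply' (P.N x) k c]
  exact h2

theorem fr_ch {x : K.V} (hx : x ∈ line_Hs D K v0) {c : D.U} (hc : P.N x c ≠ P.M x c) :
    line_ch P v0 u0 w0 (cl D K x) (line_fr K v0 u0 w0 (cl D K x) (P.N x) c) =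
      line_ch P v0 u0 w0 (cl D K x) c := by
  obtain ⟨k, h1, h2, h3⟩ := L.fr_spec hx c
  rw [h1]
  exact L.ch_ray hx hc k h3

theorem st_ax {x : K.V} (hx : x ∈ line_Hs D K v0) {a b : D.U}
    (h : line_st P v0 u0 w0 (cl D K x) a b) : Ax2 P x a b := by
  obtain ⟨⟨x', hx', h1⟩, -⟩ := h
  obtain ⟨h2, h3⟩ := L.hs_cl hx hx'
  refine L.ax2_cl h2 ?_ h1
  rw [h3]
  exact line_cl_self x

theorem fr_step {x : K.V} (hx : x ∈ line_Hs D K v0) {a b : D.U}
    (h : line_st P v0 u0 w0 (cl D K x) a b) :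
    line_fr K v0 u0 w0 (cl D K x) (P.N x) b = line_fr K v0 u0 w0 (cl D K x) (P.N x) a := by
  have key : ∀ a b, line_st P v0 u0 w0 (cl D K x) a b → P.N x a = b →
      line_fr K v0 u0 w0 (cl D K x) (P.N x) b = line_fr K v0 u0 w0 (cl D K x) (P.N x) a := by
    intro a b h hab
    subst hab
    obtain ⟨k, h1, h2, h3⟩ := L.fr_spec hx (P.N x a)
    rw [h1]
    refine (line_fr_eq (k := k + 1) ?_ ?_).symm
    · rw [Function.iterate_succ_apply (P.N x) k a, Function.iterate_succ_apply (P.N x) (k + 1) a]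
      exact h2
    · intro j hj
      rcases j with _ | j
      · exact h.2
      · rw [Function.iterate_succ_apply (P.N x) j a, Function.iterate_succ_apply (P.N x) (j + 1) a]
        exact h3 j (by omega)
  rcases L.st_ax hx h with h1 | h1
  · exact key a b h h1.1
  · exact (key b a (line_st_symm h) h1.1).symm

theorem fr_const {x : K.V} (hx : x ∈ line_Hs D K v0) {a b : D.U}
    (h : b ∈ line_ch P v0 u0 w0 (cl D K x) a) :
    line_fr K v0 u0 w0 (cl D K x) (P.N x) b = line_fr K v0 u0 w0 (cl D K x) (P.N x) a := by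
  have h' : Relation.ReflTransGen (line_st P v0 u0 w0 (cl D K x)) a b := h
  clear h
  induction h' with
  | refl => rfl
  | tail _ h1 ih => rw [← ih]; exact L.fr_step hx h1

theorem fr_smul (g : G) {x : K.V} (hx : x ∈ line_Hs D K v0) (c : D.U) :
    line_fr K v0 u0 w0 (cl D K (g • x)) (P.N (g • x)) (g • c) =
      g • line_fr K v0 u0 w0 (cl D K x) (P.N x) c := by
  obtain ⟨k, h1, h2, h3⟩ := L.fr_spec hx c
  rw [h1, ← P.N_iter]
  refine line_fr_eq ?_ ?_
  · rw [(L.hs_smul g hx).2, P.N_iter, P.N_iter]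
    exact line_sp_smul g h2
  · intro j hj h
    rw [(L.hs_smul g hx).2, P.N_iter, P.N_iter, line_sp_smul_iff] at h
    exact h3 j hj h

/-- an element preserving a chamber and the direction is trivial -/
theorem stab_one {x : K.V} (hx : x ∈ line_Hs D K v0) {c : D.U} {g : G}
    (h1 : g • cl D K x = cl D K x)
    (h2 : g • line_ch P v0 u0 w0 (cl D K x) c = line_ch P v0 u0 w0 (cl D K x) c)
    (h3 : P.N (g • x) = P.N x) : g = 1 := by
  have h4 : g • c ∈ line_ch P v0 u0 w0 (cl D K x) c := by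
    rw [← h2]
    exact Set.smul_mem_smul_set (line_ch_self _ _)
  have h5 := L.fr_const hx h4
  have h6 := L.fr_smul g hx c
  rw [(L.hs_smul g hx).2, h1, h3, h5] at h6
  have h7 := L.sp_ax hx (L.fr_sp hx c)
  refine L.ft hx h7 g h1 h6.symm ?_
  rw [← P.eN, h3, ← h6]

theorem stab_fin {x : K.V} (hx : x ∈ line_Hs D K v0) (c : D.U) :
    {g : G | g • cl D K x = cl D K x ∧
      g • line_ch P v0 u0 w0 (cl D K x) c = line_ch P v0 u0 w0 (cl D K x) c}.Finite := by
  classical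
  refine Set.Finite.of_injOn (f := fun g : G => (decide (P.N (g • x) = P.N x) : Bool))
    (t := Set.univ) (fun _ _ => Set.mem_univ _) ?_ Set.finite_univ
  rintro g ⟨hg1, hg2⟩ g' ⟨hg1', hg2'⟩ h
  have h' : (P.N (g • x) = P.N x) ↔ (P.N (g' • x) = P.N x) := by simpa using h
  have hm : ∀ g : G, g • cl D K x = cl D K x → g • x ∈ cl D K x := by
    intro g hg
    have h8 : g • x ∈ g • cl D K x := Set.smul_mem_smul_set (line_cl_self x)
    rw [hg] at h8
    exact h8
  have h9 : P.N (g • x) = P.N (g' • x) := by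
    by_cases h5 : P.N (g • x) = P.N x
    · rw [h5, h'.1 h5]
    · have h6 : P.N (g' • x) ≠ P.N x := fun h => h5 (h'.2 h)
      rw [((L.ends hx (hm g hg1)).resolve_left (fun h => h5 h.1)).1,
        ((L.ends hx (hm g' hg1')).resolve_left (fun h => h6 h.1)).1]
  have h10 : g'⁻¹ * g = 1 := by
    refine L.stab_one hx (c := c) ?_ ?_ ?_
    · rw [mul_smul, hg1, inv_smul_eq_iff, hg1']
    · rw [mul_smul, hg2, inv_smul_eq_iff, hg2']
    · have h11 : P.N (g'⁻¹ • g • x) = P.N (g'⁻¹ • g' • x) := (P.N_eq_smul g'⁻¹).2 h9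
      rw [inv_smul_smul] at h11
      rw [mul_smul]
      exact h11
  exact (inv_mul_eq_one.1 h10).symm

end Line_H

end front

/-! ## The position data -/

section data

variable {D : Setup G} {K : Cx G} {P : Pts D K} {v0 : K.V} {u0 w0 : D.U}

theorem line_cl_of {x : K.V} (hx : x ∈ line_Hs D K v0) : line_cl D K v0 x = cl D K x := if_pos hx

theorem line_cl_not {x : K.V} (hx : x ∉ line_Hs D K v0) : line_cl D K v0 x = {x} := if_neg hx

theorem line_cl_mem (x : K.V) : x ∈ line_cl D K v0 x := by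
  by_cases hx : x ∈ line_Hs D K v0
  · rw [line_cl_of hx]; exact line_cl_self x
  · rw [line_cl_not hx]; rfl

theorem line_ss_symm {p q : line_W P v0 u0 w0} (h : line_ss P v0 u0 w0 p q) :
    line_ss P v0 u0 w0 q p := by
  obtain ⟨h1, x, a, b, h2, h3, h4, h5⟩ := h
  exact ⟨h1.symm, x, b, a, h2, line_ax2_symm h3, h5, h4⟩

theorem line_ss_rho {p q : line_W P v0 u0 w0} (h : line_ss P v0 u0 w0 p q) :
    line_rho P v0 u0 w0 p = line_rho P v0 u0 w0 q := by
  obtain ⟨h1, x, a, b, h2, h3, h4, h5⟩ := h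
  unfold line_rho
  rw [h4, h5]

namespace Line_H

variable (L : Line_H P v0 u0 w0)
include L

theorem cl_eq {x y : K.V} (h : y ∈ line_cl D K v0 x) :
    line_cl D K v0 y = line_cl D K v0 x := by
  by_cases hx : x ∈ line_Hs D K v0
  · rw [line_cl_of hx] at h ⊢
    obtain ⟨h1, h2⟩ := L.hs_cl hx h
    rw [line_cl_of h1, h2]
  · rw [line_cl_not hx] at h
    rw [Set.mem_singleton_iff.1 h]

theorem cl_smul (g : G) (x : K.V) : line_cl D K v0 (g • x) = g • line_cl D K v0 x := by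
  by_cases hx : x ∈ line_Hs D K v0
  · rw [line_cl_of hx, line_cl_of (L.hs_smul g hx).1, (L.hs_smul g hx).2]
  · rw [line_cl_not hx, line_cl_not (fun h => hx ((L.hs_smul_iff g).1 h)),
      Set.smul_set_singleton]

/-- an edge between different classes at a vertex of a cluster is free -/
theorem free {x y : K.V} (hx : x ∈ line_Hs D K v0) (hxy : K.adj x y)
    (hne : line_cl D K v0 x ≠ line_cl D K v0 y) : Fr K x y := by
  refine L.free_out hx hxy (fun h => hne ?_)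
  refine (L.cl_eq ?_).symm
  rw [line_cl_of hx]
  exact h

omit L in
/-- special position data -/
theorem wp_chamber {x : K.V} {c : D.U} (hx : x ∈ line_Hs D K v0) (hc : P.N x c ≠ P.M x c) :
    line_Wp P v0 u0 w0 (.inr (cl D K x, line_ch P v0 u0 w0 (cl D K x) c)) :=
  ⟨x, c, hx, hc, rfl, rfl⟩

theorem wp_pa {x y : K.V} (hxy : K.adj x y) (hne : line_cl D K v0 x ≠ line_cl D K v0 y)
    (c : D.U) : line_Wp P v0 u0 w0 (line_pa P v0 u0 w0 x y c) := by
  unfold line_pa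
  by_cases hx : x ∈ line_Hs D K v0
  · rw [if_pos hx]
    exact wp_chamber hx (L.tl_axis hx hxy (L.free hx hxy hne) c)
  · rw [if_neg hx]
    exact hx

theorem on0 : P.N v0 u0 ≠ P.M v0 u0 ∧ P.N v0 w0 ≠ P.M v0 w0 := line_ax2_on L.hyp0 L.ax0

/-- the two chambers at the edge `{u0,w0}` -/
def c0 : line_W P v0 u0 w0 := ⟨_, wp_chamber hs0 L.on0.1⟩
/-- the other chamber at the edge `{u0,w0}` -/
def c1 : line_W P v0 u0 w0 := ⟨_, wp_chamber hs0 L.on0.2⟩

open Classical in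
/-- the positions -/
noncomputable def pi (x y : K.V) (c : D.U) : line_W P v0 u0 w0 :=
  if h : line_Wp P v0 u0 w0 (line_pa P v0 u0 w0 x y c) then ⟨_, h⟩ else L.c0

theorem pi_val {x y : K.V} (hxy : K.adj x y) (hne : line_cl D K v0 x ≠ line_cl D K v0 y)
    (c : D.U) : (L.pi x y c).1 = line_pa P v0 u0 w0 x y c := by
  unfold pi
  rw [dif_pos (L.wp_pa hxy hne c)]

theorem pi_hs {x y : K.V} (hx : x ∈ line_Hs D K v0) (hxy : K.adj x y)
    (hne : line_cl D K v0 x ≠ line_cl D K v0 y) (c : D.U) :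
    (L.pi x y c).1 = .inr (cl D K x, line_ch P v0 u0 w0 (cl D K x)
      (line_tl P v0 u0 w0 x y c)) := by
  rw [L.pi_val hxy hne]
  exact if_pos hx

theorem pi_not {x y : K.V} (hx : x ∉ line_Hs D K v0) (hxy : K.adj x y)
    (hne : line_cl D K v0 x ≠ line_cl D K v0 y) (c : D.U) :
    (L.pi x y c).1 = .inl x := by
  rw [L.pi_val hxy hne]
  exact if_neg hx

theorem pi_rho {x y : K.V} (hxy : K.adj x y)
    (hne : line_cl D K v0 x ≠ line_cl D K v0 y) (c : D.U) :
    line_rho P v0 u0 w0 (L.pi x y c) = line_cl D K v0 x := by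
  unfold line_rho
  by_cases hx : x ∈ line_Hs D K v0
  · rw [L.pi_hs hx hxy hne, line_cl_of hx]
  · rw [L.pi_not hx hxy hne, line_cl_not hx]

theorem cl_ne_smul (g : G) {x y : K.V} (hne : line_cl D K v0 x ≠ line_cl D K v0 y) :
    line_cl D K v0 (g • x) ≠ line_cl D K v0 (g • y) := by
  rw [L.cl_smul, L.cl_smul]
  exact fun h => hne (smul_left_cancel g h)

theorem p1 (g : G) {x y : K.V} (hxy : K.adj x y) (hne : line_cl D K v0 x ≠ line_cl D K v0 y)
    (c : D.U) : (L.pi (g • x) (g • y) (g • c)).1 = g • (L.pi x y c).1 := by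
  have h1 := K.smul_adj g _ _ hxy
  have h2 := L.cl_ne_smul g hne
  by_cases hx : x ∈ line_Hs D K v0
  · rw [L.pi_hs hx hxy hne, L.pi_hs (L.hs_smul g hx).1 h1 h2, (L.hs_smul g hx).2,
      L.tl_smul g hx hxy (L.free hx hxy hne), line_ch_smul]
    rfl
  · rw [L.pi_not hx hxy hne, L.pi_not (fun h => hx ((L.hs_smul_iff g).1 h)) h1 h2]
    rfl

theorem p2 {x y : K.V} {u w : D.U} (hxy : K.adj x y)
    (hne : line_cl D K v0 x ≠ line_cl D K v0 y) (hc : Cross P x y u w) :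
    L.pi x y u = L.pi x y w ∨ (line_ss P v0 u0 w0 (L.pi x y u) (L.pi x y w) ∧
      x ∈ line_Hs D K v0 ∧ line_sp K v0 u0 w0 (cl D K x) w u ∧ y ∈ Sset P x w u ∧
      (L.pi x y u).1 = .inr (cl D K x, line_ch P v0 u0 w0 (cl D K x) u) ∧
      (L.pi x y w).1 = .inr (cl D K x, line_ch P v0 u0 w0 (cl D K x) w)) := by
  by_cases heq : L.pi x y u = L.pi x y w
  · exact Or.inl heq
  right
  by_cases hx : x ∈ line_Hs D K v0
  · have hfr := L.free hx hxy hne
    rcases L.tl_cross hx hxy hfr hc.2.1 with h1 | ⟨h1, h2, h3, h4⟩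
    · exfalso
      apply heq
      apply Subtype.ext
      rw [L.pi_hs hx hxy hne, L.pi_hs hx hxy hne, h1]
    · have h5 : (L.pi x y u).1 = .inr (cl D K x, line_ch P v0 u0 w0 (cl D K x) u) := by
        rw [L.pi_hs hx hxy hne, h4]
      have h6 : (L.pi x y w).1 = .inr (cl D K x, line_ch P v0 u0 w0 (cl D K x) w) := by
        rw [L.pi_hs hx hxy hne, h3]
      exact ⟨⟨heq, x, u, w, hx, line_ax2_symm (L.sp_ax hx h1), h5, h6⟩, hx, h1, h2, h5, h6⟩
  · exfalso
    apply heq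
    apply Subtype.ext
    rw [L.pi_not hx hxy hne, L.pi_not hx hxy hne]

/-- a triangle with center `c`: the same edges ahead of `c` -/
theorem gd_tri {x y z : K.V} (hx : x ∈ line_Hs D K v0) (ht : K.tri x y z) {c : D.U}
    (hc : OnI (P.N x) (P.N z) c) {k : ℕ} (h : line_gd P v0 u0 w0 x y c k) :
    line_gd P v0 u0 w0 x z c k := by
  have hx' := L.hs_ell hx
  obtain ⟨hN, hM, -, -⟩ := P.hyp x hx'
  refine ⟨h.1, ?_⟩
  rw [(L.sl G D K P L.red L.rmin L.nd x _ _ hx' (L.gd_N hx h).2).2.2.2.2.1 y z h.2 ht]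
  exact (line_onI_iter (P.fN x) (P.fN z) hN hc k).1

theorem p3 {x y z : K.V} {c : D.U} (ht : K.tri x y z)
    (hxy : line_cl D K v0 x ≠ line_cl D K v0 y) (hxz : line_cl D K v0 x ≠ line_cl D K v0 z)
    (hc : IsCenter (P.N x) (P.N y) (P.N z) c) : L.pi x y c = L.pi x z c := by
  obtain ⟨h1, h2, h3, h4, h5, h6⟩ := K.tri_adj' ht
  obtain ⟨t1, t2, t3, t4, t5⟩ := K.tri_perm ht
  have c1 : OnI (P.N x) (P.N y) c := hc.1
  have c2 : OnI (P.N x) (P.N z) c := hc.2.2
  apply Subtype.ext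
  by_cases hx : x ∈ line_Hs D K v0
  · rw [L.pi_hs hx h1 hxy, L.pi_hs hx h6 hxz]
    obtain ⟨k, k1, k2⟩ := line_min (L.ex_gd hx h1 (L.free hx h1 hxy) c)
    rw [line_tl_eq k1 k2, line_tl_eq (L.gd_tri hx ht c2 k1)
      (fun j hj h => k2 j hj (L.gd_tri hx t4 c1 h))]
  · rw [L.pi_not hx h1 hxy, L.pi_not hx h6 hxz]

/-- a triangle with two vertices in a cluster -/
theorem p4_aux {x y z : K.V} {c : D.U} (hx : x ∈ line_Hs D K v0) (hy : y ∈ cl D K x)
    (ht : K.tri x y z) (hxz : line_cl D K v0 x ≠ line_cl D K v0 z)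
    (hc : IsCenter (P.N x) (P.N y) (P.N z) c) :
    (L.pi x z c).1 = .inr (cl D K x, line_ch P v0 u0 w0 (cl D K x) c) := by
  have hx' := L.hs_ell hx
  obtain ⟨hN, hM, -, -⟩ := P.hyp x hx'
  obtain ⟨h1, h2, h3, h4, h5, h6⟩ := K.tri_adj' ht
  have c1 : OnI (P.N x) (P.N y) c := hc.1
  have c2 : OnI (P.N x) (P.N z) c := hc.2.2
  have htf := L.tf_in hx h1 hy
  have hNy : P.N y = P.M x := ((L.clu G D K P L.nd _ _ hx' hy).2.2.2.1 htf).1
  have hax : P.N x c ≠ P.M x c := fun h => hN c (c1 (by rw [hNy]; exact h))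
  rw [L.pi_hs hx h6 hxz]
  obtain ⟨k, k1, k2⟩ := line_min (L.ex_gd hx h6 (L.free hx h6 hxz) c)
  rw [line_tl_eq k1 k2, L.ch_ray hx hax k]
  intro j hj hsp
  apply k2 j hj
  refine L.gd_tri hx ht c2 ⟨hsp, ?_⟩
  have hsp' := hsp
  rw [Function.iterate_succ_apply' (P.N x) j c] at hsp'
  have h7 := (L.sp_N hx hsp').2
  rw [← Function.iterate_succ_apply' (P.N x) j c] at h7
  exact (L.sl G D K P L.red L.rmin L.nd x _ _ hx' h7).2.1 y h1 htf.2.2.2

theorem p4 {x y z : K.V} {c : D.U} (ht : K.tri x y z)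
    (hxy : line_cl D K v0 x = line_cl D K v0 y) (hyz : line_cl D K v0 y ≠ line_cl D K v0 z)
    (hc : IsCenter (P.N x) (P.N y) (P.N z) c) : L.pi x z c = L.pi y z c := by
  obtain ⟨h1, h2, h3, h4, h5, h6⟩ := K.tri_adj' ht
  obtain ⟨t1, t2, t3, t4, t5⟩ := K.tri_perm ht
  have hy0 : y ∈ line_cl D K v0 x := by rw [hxy]; exact line_cl_mem y
  by_cases hx : x ∈ line_Hs D K v0
  · rw [line_cl_of hx] at hy0
    obtain ⟨hy1, hy2⟩ := L.hs_cl hx hy0
    apply Subtype.ext
    rw [L.p4_aux hx hy0 ht (by rw [hxy]; exact hyz) hc,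
      L.p4_aux hy1 (by rw [hy2]; exact line_cl_self x) t3 hyz
        ⟨fun h => by rw [h]; exact hc.1 h.symm, hc.2.2, hc.2.1⟩, hy2]
  · rw [line_cl_not hx] at hy0
    rw [Set.mem_singleton_iff.1 hy0] at h1
    exact absurd h1 (K.irrefl x)

theorem p5 {x y : K.V} {c c' : D.U} (hxy : K.adj x y)
    (hne : line_cl D K v0 x ≠ line_cl D K v0 y) (hf : ¬ Fr K x y) : L.pi x y c = L.pi x y c' := by
  by_cases hx : x ∈ line_Hs D K v0
  · exact absurd (L.free hx hxy hne) hf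
  · apply Subtype.ext
    rw [L.pi_not hx hxy hne, L.pi_not hx hxy hne]

theorem cl_conn (x y : K.V) (h : y ∈ line_cl D K v0 x) :
    Relation.ReflTransGen (fun p q => K.adj p q ∧ line_cl D K v0 p = line_cl D K v0 q) x y := by
  by_cases hx : x ∈ line_Hs D K v0
  · rw [line_cl_of hx] at h
    have key : ∀ b, Relation.ReflTransGen (TF D K) x b →
        Relation.ReflTransGen (fun p q => K.adj p q ∧ line_cl D K v0 p = line_cl D K v0 q) x b := by
      intro b hb
      induction hb with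
      | refl => exact Relation.ReflTransGen.refl
      | @tail b c hb hbc ih =>
        refine ih.tail ⟨hbc.1, ?_⟩
        have h1 : b ∈ line_cl D K v0 x := by rw [line_cl_of hx]; exact hb
        have h2 : c ∈ line_cl D K v0 x := by rw [line_cl_of hx]; exact hb.tail hbc
        rw [L.cl_eq h1, L.cl_eq h2]
    exact key y h
  · rw [line_cl_not hx] at h
    rw [Set.mem_singleton_iff.1 h]

theorem cl_ne (x : K.V) : ∃ y, y ∉ line_cl D K v0 x := by
  obtain ⟨y, hy⟩ := K.nbr x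
  by_cases hx : x ∈ line_Hs D K v0
  · by_contra hcon
    push Not at hcon
    rw [line_cl_of hx] at hcon
    have hx' := L.hs_ell hx
    obtain ⟨z, hz⟩ := (L.red.R2 x (Or.inr hx')).2 y hy
    obtain ⟨h1, h2, h3, h4, h5, h6⟩ := K.tri_adj' hz
    have hy1 := L.tf_in hx h1 (hcon y)
    have hz1 := L.tf_in hx h6 (hcon z)
    have e1 := ((L.clu G D K P L.nd _ _ hx' (hcon y)).2.2.2.1 hy1).1
    have e2 := ((L.clu G D K P L.nd _ _ hx' (hcon z)).2.2.2.1 hz1).1
    obtain ⟨u, hu⟩ := L.nd y z h2 (e1.trans e2.symm)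
    exact (P.hyp y (L.hs_ell (L.hs_cl hx (hcon y)).1)).1 u hu
  · refine ⟨y, fun h => ?_⟩
    rw [line_cl_not hx] at h
    rw [Set.mem_singleton_iff.1 h] at hy
    exact K.irrefl x hy

omit L in
theorem rho_cl (p : line_W P v0 u0 w0) : ∃ x, line_rho P v0 u0 w0 p = line_cl D K v0 x := by
  rcases p with ⟨x | ⟨C, S⟩, hp⟩
  · exact ⟨x, (line_cl_not hp).symm⟩
  · obtain ⟨x, c, h1, h2, h3, h4⟩ := hp
    exact ⟨x, by rw [line_cl_of h1]; exact h3⟩

theorem rho_surj (x : K.V) : ∃ p, line_rho P v0 u0 w0 p = line_cl D K v0 x := by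
  by_cases hx : x ∈ line_Hs D K v0
  · obtain ⟨-, -, -, u, hu⟩ := P.hyp x (L.hs_ell hx)
    exact ⟨⟨_, wp_chamber hx hu⟩, (line_cl_of hx).symm⟩
  · exact ⟨⟨.inl x, hx⟩, (line_cl_not hx).symm⟩

/-- axis and ends only depend on the cluster -/
theorem ax_cl {x y : K.V} (hx : x ∈ line_Hs D K v0) (hy : y ∈ cl D K x) {c : D.U} :
    P.N y c ≠ P.M y c ↔ P.N x c ≠ P.M x c := by
  rcases L.ends hx hy with ⟨h1, h2⟩ | ⟨h1, h2⟩
  · rw [h1, h2]
  · rw [h1, h2]; exact ne_comm

/-- two consecutive chambers -/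
theorem chm_step {x : K.V} (hx : x ∈ line_Hs D K v0) {c : D.U} (hc : P.N x c ≠ P.M x c)
    (hc' : P.N x (P.N x c) ≠ P.M x (P.N x c)) :
    Relation.ReflTransGen (line_ss P v0 u0 w0) ⟨_, wp_chamber hx hc⟩ ⟨_, wp_chamber hx hc'⟩ := by
  by_cases h : (⟨_, wp_chamber hx hc⟩ : line_W P v0 u0 w0) = ⟨_, wp_chamber hx hc'⟩
  · rw [h]
  · exact Relation.ReflTransGen.single ⟨h, x, c, P.N x c, hx, line_ax2_of (L.hs_ell hx) hc,
      rfl, rfl⟩

theorem chm_iter {x : K.V} (hx : x ∈ line_Hs D K v0) {c : D.U} (hc : P.N x c ≠ P.M x c) (k : ℕ)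
    (hc' : P.N x ((P.N x)^[k] c) ≠ P.M x ((P.N x)^[k] c)) :
    Relation.ReflTransGen (line_ss P v0 u0 w0) ⟨_, wp_chamber hx hc⟩ ⟨_, wp_chamber hx hc'⟩ := by
  obtain ⟨hN, hM, -, -⟩ := P.hyp x (L.hs_ell hx)
  induction k with
  | zero => exact Relation.ReflTransGen.refl
  | succ k ih =>
    have h1 := line_axN_iter (P.fN x) (P.fM x) hN hc k
    refine (ih h1).trans ?_
    have e : (⟨_, wp_chamber hx hc'⟩ : line_W P v0 u0 w0) =
        ⟨_, wp_chamber hx (c := P.N x ((P.N x)^[k] c))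
          (line_axN (P.fN x) (P.fM x) hN h1).2⟩ := by
      apply Subtype.ext
      show (Sum.inr (cl D K x, line_ch P v0 u0 w0 (cl D K x) ((P.N x)^[k + 1] c)) :
        K.V ⊕ (Set K.V × Set D.U)) = _
      rw [Function.iterate_succ_apply']
    rw [e]
    exact L.chm_step hx h1 (line_axN (P.fN x) (P.fM x) hN h1).2

theorem ss_conn (p q : line_W P v0 u0 w0)
    (h : line_rho P v0 u0 w0 p = line_rho P v0 u0 w0 q) :
    Relation.ReflTransGen (line_ss P v0 u0 w0) p q := by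
  rcases p with ⟨x | ⟨C, S⟩, hp⟩ <;> rcases q with ⟨y | ⟨C', S'⟩, hq⟩
  · have h1 : ({x} : Set K.V) = {y} := h
    have h2 : x = y := Set.singleton_injective h1
    subst h2
    exact Relation.ReflTransGen.refl
  · exfalso
    obtain ⟨y, c, h1, h2, h3, h4⟩ := hq
    have h5 : ({x} : Set K.V) = C' := h
    have h6 : x ∈ cl D K y := by rw [← h3, ← h5]; rfl
    exact hp (L.hs_cl h1 h6).1
  · exfalso
    obtain ⟨x, c, h1, h2, h3, h4⟩ := hp
    have h5 : C = ({y} : Set K.V) := h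
    have h6 : y ∈ cl D K x := by rw [← h3, h5]; rfl
    exact hq (L.hs_cl h1 h6).1
  · obtain ⟨x, c, h1, h2, h3, h4⟩ := hp
    obtain ⟨y, c', k1, k2, k3, k4⟩ := hq
    have h5 : C = C' := h
    have hxy : cl D K y = cl D K x := by rw [← h3, ← k3, h5]
    have hy : y ∈ cl D K x := by rw [← hxy]; exact line_cl_self y
    have k2' : P.N x c' ≠ P.M x c' := (L.ax_cl h1 hy).1 k2
    have e1 : (⟨Sum.inr (C, S), ⟨x, c, h1, h2, h3, h4⟩⟩ : line_W P v0 u0 w0) =
        ⟨_, wp_chamber h1 h2⟩ := by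
      apply Subtype.ext
      show (Sum.inr (C, S) : K.V ⊕ (Set K.V × Set D.U)) = _
      rw [h4, h3]
    have e2 : (⟨Sum.inr (C', S'), ⟨y, c', k1, k2, k3, k4⟩⟩ : line_W P v0 u0 w0) =
        ⟨_, wp_chamber h1 k2'⟩ := by
      apply Subtype.ext
      show (Sum.inr (C', S') : K.V ⊕ (Set K.V × Set D.U)) = _
      rw [k4, k3, hxy]
    rw [e1, e2]
    obtain ⟨hN, hM, -, -⟩ := P.hyp x (L.hs_ell h1)
    obtain ⟨a, b, e⟩ := line_merge D.tree (P.fN x) c c'
    have ha := line_axN_iter (P.fN x) (P.fM x) hN h2 a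
    have hb := line_axN_iter (P.fN x) (P.fM x) hN k2' b
    have e3 : (⟨_, wp_chamber h1 ha⟩ : line_W P v0 u0 w0) = ⟨_, wp_chamber h1 hb⟩ := by
      apply Subtype.ext
      show (Sum.inr (cl D K x, line_ch P v0 u0 w0 (cl D K x) ((P.N x)^[a] c)) :
        K.V ⊕ (Set K.V × Set D.U)) = _
      rw [e]
    refine (L.chm_iter h1 h2 a ha).trans ?_
    rw [e3]
    exact line_rsymm (fun _ _ => line_ss_symm) (L.chm_iter h1 k2' b hb)

theorem ss_sc : SC (line_ss P v0 u0 w0) (fun _ _ _ => False) := by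
  classical
  intro H _ c hc _
  -- pull back to the tree
  let pr : Set K.V → D.U → D.U → line_W P v0 u0 w0 × line_W P v0 u0 w0 → Prop :=
    fun C a b pq => line_ss P v0 u0 w0 pq.1 pq.2 ∧
      pq.1.1 = .inr (C, line_ch P v0 u0 w0 C a) ∧ pq.2.1 = .inr (C, line_ch P v0 u0 w0 C b)
  let cT : Set K.V → D.U → D.U → H := fun C a b =>
    if h : ∃ pq, pr C a b pq then c h.choose.1 h.choose.2 else 1
  have hcT : ∀ C a b pq, pr C a b pq → cT C a b = c pq.1 pq.2 := by
    intro C a b pq h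
    have h' : ∃ pq, pr C a b pq := ⟨pq, h⟩
    show (if h : ∃ pq, pr C a b pq then c h.choose.1 h.choose.2 else 1) = _
    rw [dif_pos h']
    obtain ⟨-, h2, h3⟩ := h'.choose_spec
    have e1 : h'.choose.1 = pq.1 := Subtype.ext (h2.trans h.2.1.symm)
    have e2 : h'.choose.2 = pq.2 := Subtype.ext (h3.trans h.2.2.symm)
    rw [e1, e2]
  have hcT1 : ∀ C a b, (¬ ∃ pq, pr C a b pq) → cT C a b = 1 := fun C a b h => dif_neg h
  have hcoc : ∀ C, ∃ f : D.U → H, ∀ a b, D.T.Adj a b → cT C a b = (f a)⁻¹ * f b := by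
    intro C
    refine L.tpot D.U D.T D.tree.isAcyclic H (cT C) ?_ (fun _ _ _ h => h.elim)
    intro a b _
    by_cases h : ∃ pq, pr C a b pq
    · obtain ⟨pq, h⟩ := h
      rw [hcT C a b pq h, hcT C b a (pq.2, pq.1) ⟨line_ss_symm h.1, h.2.2, h.2.1⟩]
      exact hc _ _ h.1
    · have h' : ¬ ∃ pq, pr C b a pq := by
        rintro ⟨pq, h1⟩
        exact h ⟨(pq.2, pq.1), line_ss_symm h1.1, h1.2.2, h1.2.1⟩
      rw [hcT1 C a b h, hcT1 C b a h', one_mul]
  choose f hf using hcoc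
  have hconst : ∀ x, x ∈ line_Hs D K v0 → ∀ a b, b ∈ line_ch P v0 u0 w0 (cl D K x) a →
      f (cl D K x) b = f (cl D K x) a := by
    intro x hx a b h
    have h' : Relation.ReflTransGen (line_st P v0 u0 w0 (cl D K x)) a b := h
    clear h
    induction h' with
    | refl => rfl
    | @tail b c hb h1 ih =>
      rw [← ih]
      have h2 := hf (cl D K x) b c (line_ax2_adj (L.st_ax hx h1))
      have h3 : ¬ ∃ pq, pr (cl D K x) b c pq := by
        rintro ⟨pq, h4, h5, h6⟩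
        apply h4.1
        apply Subtype.ext
        rw [h5, h6, line_ch_step h1]
      rw [hcT1 _ _ _ h3] at h2
      exact (inv_mul_eq_one.1 h2.symm).symm
  refine ⟨fun p => match p.1 with
    | .inl _ => 1
    | .inr (C, S) => if h : S.Nonempty then f C h.choose else 1, ?_⟩
  intro p q hpq
  obtain ⟨-, x, a, b, hx, hab, hp, hq⟩ := id hpq
  have h1 := hcT (cl D K x) a b (p, q) ⟨hpq, hp, hq⟩
  have h2 := hf (cl D K x) a b (line_ax2_adj hab)
  rw [h1] at h2
  have key : ∀ c : D.U, (if h : (line_ch P v0 u0 w0 (cl D K x) c).Nonempty then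
      f (cl D K x) h.choose else 1) = f (cl D K x) c := by
    intro c
    have hne : (line_ch P v0 u0 w0 (cl D K x) c).Nonempty := ⟨c, line_ch_self _ _⟩
    rw [dif_pos hne]
    exact hconst x hx c _ hne.choose_spec
  show c p q = (match p.1 with
    | .inl _ => 1
    | .inr (C, S) => if h : S.Nonempty then f C h.choose else 1)⁻¹ * (match q.1 with
    | .inl _ => 1
    | .inr (C, S) => if h : S.Nonempty then f C h.choose else 1)
  rw [hp, hq]
  show c p q = (if h : (line_ch P v0 u0 w0 (cl D K x) a).Nonempty then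
      f (cl D K x) h.choose else 1)⁻¹ * (if h : (line_ch P v0 u0 w0 (cl D K x) b).Nonempty then
      f (cl D K x) h.choose else 1)
  rw [key a, key b]
  exact h2

theorem act_val (g : G) (p : line_W P v0 u0 w0) :
    (letI := L.act; (g • p : line_W P v0 u0 w0)).1 = g • p.1 := rfl

theorem stab_fc (p : line_W P v0 u0 w0) : letI := L.act; FC (stabilizer G p) := by
  letI := L.act
  show FC (stabilizer G p)
  rcases p with ⟨x | ⟨C, S⟩, hp⟩
  · have e : stabilizer G (⟨Sum.inl x, hp⟩ : line_W P v0 u0 w0) = stabilizer G x := by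
      ext g
      constructor
      · intro h
        have h1 : g • (⟨Sum.inl x, hp⟩ : line_W P v0 u0 w0) = ⟨Sum.inl x, hp⟩ := h
        have h2 := congrArg Subtype.val h1
        exact Sum.inl_injective h2
      · intro h
        have h1 : g • x = x := h
        show g • (⟨Sum.inl x, hp⟩ : line_W P v0 u0 w0) = ⟨Sum.inl x, hp⟩
        apply Subtype.ext
        show (Sum.inl (g • x) : K.V ⊕ (Set K.V × Set D.U)) = Sum.inl x
        rw [h1]
    rw [e]
    exact K.stab x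
  · left
    obtain ⟨x, c, h1, h2, h3, h4⟩ := id hp
    have hf := L.stab_fin h1 c
    refine (hf.subset ?_).to_subtype
    intro g hg
    have h5 : g • (⟨Sum.inr (C, S), hp⟩ : line_W P v0 u0 w0) = ⟨Sum.inr (C, S), hp⟩ := hg
    have h6 : (Sum.inr (g • C, g • S) : K.V ⊕ (Set K.V × Set D.U)) = Sum.inr (C, S) :=
      congrArg Subtype.val h5
    have h7 := Prod.ext_iff.1 (Sum.inr_injective h6)
    have h8 : g • C = C := h7.1
    have h9 : g • S = S := h7.2
    rw [h4, h3] at h9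
    rw [h3] at h8
    exact ⟨h8, h9⟩

/-- a chamber is a translate of `c0` or `c1` -/
theorem chamber_rep {x : K.V} (hx : x ∈ line_Hs D K v0) {a b : D.U}
    (hsp : line_sp K v0 u0 w0 (cl D K x) a b) {p q : line_W P v0 u0 w0}
    (hp : p.1 = .inr (cl D K x, line_ch P v0 u0 w0 (cl D K x) a))
    (hq : q.1 = .inr (cl D K x, line_ch P v0 u0 w0 (cl D K x) b)) :
    letI := L.act; ∃ g : G, (g • L.c0 = p ∧ g • L.c1 = q) ∨ (g • L.c1 = p ∧ g • L.c0 = q) := by
  letI := L.act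
  show ∃ g : G, (g • L.c0 = p ∧ g • L.c1 = q) ∨ (g • L.c1 = p ∧ g • L.c0 = q)
  obtain ⟨g, hg, h⟩ := hsp
  have key0 : (g • L.c0).1 = .inr (cl D K x, line_ch P v0 u0 w0 (cl D K x) (g • u0)) := by
    show (Sum.inr (g • cl D K v0, g • line_ch P v0 u0 w0 (cl D K v0) u0) :
      K.V ⊕ (Set K.V × Set D.U)) = _
    rw [← line_ch_smul, hg]
  have key1 : (g • L.c1).1 = .inr (cl D K x, line_ch P v0 u0 w0 (cl D K x) (g • w0)) := by
    show (Sum.inr (g • cl D K v0, g • line_ch P v0 u0 w0 (cl D K v0) w0) :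
      K.V ⊕ (Set K.V × Set D.U)) = _
    rw [← line_ch_smul, hg]
  rcases h with ⟨rfl, rfl⟩ | ⟨rfl, rfl⟩
  · exact ⟨g, Or.inl ⟨Subtype.ext (key0.trans hp.symm), Subtype.ext (key1.trans hq.symm)⟩⟩
  · exact ⟨g, Or.inr ⟨Subtype.ext (key1.trans hp.symm), Subtype.ext (key0.trans hq.symm)⟩⟩

theorem finW : letI := L.act; FinOrb G (Set.univ : Set (line_W P v0 u0 w0)) := by
  letI := L.act
  show FinOrb G (Set.univ : Set (line_W P v0 u0 w0))
  have h1 : FinOrb G {p : line_W P v0 u0 w0 | ∃ x, p.1 = .inl x} := by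
    refine (oc_le_rel (G := G) (fun (p : line_W P v0 u0 w0) (x : K.V) => p.1 = .inl x)
      K.finOrb_v ?_ ?_).1
    · rintro p ⟨x, hx⟩
      exact ⟨x, trivial, hx⟩
    · rintro p _ p' _ x _ x' _ h h' g rfl
      refine ⟨g, Subtype.ext ?_⟩
      show g • p.1 = p'.1
      rw [h, h']
      rfl
  have h2 : FinOrb G {p : line_W P v0 u0 w0 | ∃ q, p.1 = .inr q} := by
    refine finOrb_of_reps ({L.c0, L.c1} : Set (line_W P v0 u0 w0)) (Set.toFinite _) ?_
    rintro ⟨x | ⟨C, S⟩, hp⟩ ⟨q, hq⟩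
    · exact absurd hq (by simp)
    · obtain ⟨x, c, k1, k2, k3, k4⟩ := id hp
      have h3 := L.fr_sp k1 c
      have h4 := L.fr_ch k1 k2
      have h5 := (L.sp_N k1 h3).1
      obtain ⟨hN, hM, -, -⟩ := P.hyp x (L.hs_ell k1)
      have h6 := (line_axN (P.fN x) (P.fM x) hN h5).2
      obtain ⟨g, hg⟩ := L.chamber_rep k1 h3 (p := ⟨Sum.inr (C, S), hp⟩)
        (q := ⟨_, wp_chamber k1 h6⟩) (by
          show (Sum.inr (C, S) : K.V ⊕ (Set K.V × Set D.U)) = _
          rw [h4, k4, k3]) rfl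
      rcases hg with ⟨hg, -⟩ | ⟨hg, -⟩
      · exact ⟨L.c0, Or.inl rfl, g, hg⟩
      · exact ⟨L.c1, Or.inr rfl, g, hg⟩
  refine (h1.union h2).mono ?_
  rintro ⟨x | q, hp⟩ _
  · exact Or.inl ⟨x, rfl⟩
  · exact Or.inr ⟨q, rfl⟩

omit L in
/-- adjacent chambers are separated by a special edge -/
theorem ss_sp {p q : line_W P v0 u0 w0} (h : line_ss P v0 u0 w0 p q) :
    ∃ x a b, x ∈ line_Hs D K v0 ∧ line_sp K v0 u0 w0 (cl D K x) a b ∧
      p.1 = .inr (cl D K x, line_ch P v0 u0 w0 (cl D K x) a) ∧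
      q.1 = .inr (cl D K x, line_ch P v0 u0 w0 (cl D K x) b) := by
  obtain ⟨h1, x, a, b, h2, h3, h4, h5⟩ := h
  refine ⟨x, a, b, h2, ?_, h4, h5⟩
  by_contra hcon
  apply h1
  apply Subtype.ext
  rw [h4, h5, line_ch_step (⟨⟨x, line_cl_self x, h3⟩, hcon⟩ :
    line_st P v0 u0 w0 (cl D K x) a b)]

theorem finS : letI := L.act;
    FinOrb G {p : line_W P v0 u0 w0 × line_W P v0 u0 w0 | line_ss P v0 u0 w0 p.1 p.2} := by
  letI := L.act
  show FinOrb G {p : line_W P v0 u0 w0 × line_W P v0 u0 w0 | line_ss P v0 u0 w0 p.1 p.2}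
  refine finOrb_of_reps ({(L.c0, L.c1), (L.c1, L.c0)} :
    Set (line_W P v0 u0 w0 × line_W P v0 u0 w0)) (Set.toFinite _) ?_
  rintro ⟨p, q⟩ hpq
  obtain ⟨x, a, b, h1, h2, h3, h4⟩ := ss_sp hpq
  obtain ⟨g, hg⟩ := L.chamber_rep h1 h2 h3 h4
  rcases hg with ⟨hg, hg'⟩ | ⟨hg, hg'⟩
  · exact ⟨(L.c0, L.c1), Or.inl rfl, g, Prod.ext hg hg'⟩
  · exact ⟨(L.c1, L.c0), Or.inr rfl, g, Prod.ext hg hg'⟩

theorem rho_smul (g : G) (p : line_W P v0 u0 w0) : letI := L.act;
    line_rho P v0 u0 w0 (g • p) = g • line_rho P v0 u0 w0 p := by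
  letI := L.act
  show line_rho P v0 u0 w0 (g • p) = g • line_rho P v0 u0 w0 p
  rcases p with ⟨x | ⟨C, S⟩, hp⟩
  · show ({g • x} : Set K.V) = g • {x}
    rw [Set.smul_set_singleton]
  · rfl

theorem ss_smul (g : G) (p q : line_W P v0 u0 w0) : letI := L.act;
    line_ss P v0 u0 w0 p q → line_ss P v0 u0 w0 (g • p) (g • q) := by
  letI := L.act
  show line_ss P v0 u0 w0 p q → line_ss P v0 u0 w0 (g • p) (g • q)
  rintro ⟨h1, x, a, b, h2, h3, h4, h5⟩
  refine ⟨fun h => h1 (smul_left_cancel g h), g • x, g • a, g • b, (L.hs_smul g h2).1,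
    line_ax2_smul g h3, ?_, ?_⟩
  · show g • p.1 = _
    rw [h4, (L.hs_smul g h2).2, line_ch_smul]
    rfl
  · show g • q.1 = _
    rw [h5, (L.hs_smul g h2).2, line_ch_smul]
    rfl

/-- THE POSITION DATA OF THE CLUSTER OF `v0` (7.3) -/
noncomputable def F : PD D K P where
  cl := line_cl D K v0
  cl_self := line_cl_mem
  cl_eq := fun _ _ h => L.cl_eq h
  cl_smul := L.cl_smul
  cl_conn := L.cl_conn
  cl_ne := L.cl_ne
  W := line_W P v0 u0 w0
  act := L.act
  ρ := line_rho P v0 u0 w0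
  ρ_smul := L.rho_smul
  ρ_cl := rho_cl
  ρ_surj := L.rho_surj
  ss := line_ss P v0 u0 w0
  ss_symm := fun _ _ => line_ss_symm
  ss_irrefl := fun _ h => h.1 rfl
  ss_smul := L.ss_smul
  ss_fib := fun _ _ => line_ss_rho
  ss_conn := L.ss_conn
  ss_sc := L.ss_sc
  π := L.pi
  π_ρ := fun _ _ c h1 h2 _ => L.pi_rho h1 h2 c
  p1 := fun g _ _ c h1 h2 _ => Subtype.ext (L.p1 g h1 h2 c)
  p2 := fun _ _ _ _ h1 h2 h3 => (L.p2 h1 h2 h3).imp_right (fun h => h.1)
  p3 := fun _ _ _ _ h1 h2 h3 h4 => L.p3 h1 h2 h3 h4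
  p4 := fun _ _ _ _ h1 h2 h3 h4 => L.p4 h1 h2 h3 h4
  p5 := fun _ _ _ _ h1 h2 h3 _ _ => L.p5 h1 h2 h3
  stab := L.stab_fc
  finW := L.finW
  finS := L.finS

end Line_H

end data

end Pool.Agent.Helper93.HZ
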